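import Mathlib

set_option autoImplicit false

namespace Pool.Agent.Work.MP_c13439_an

/-- `entropyNumber S n` is the `(n+1)`-st entropy number of `S`: the infimum of the radii `ε > 0`
such that `2 ^ n` closed balls of radius `ε` cover the image of the closed unit ball. -/
noncomputable def entropyNumber {𝕜 Z W : Type*} [RCLike 𝕜] [NormedAddCommGroup Z] [NormedSpace 𝕜 Z]
    [NormedAddCommGroup W] [NormedSpace 𝕜 W] (S : Z →L[𝕜] W) (n : ℕ) : ℝ :=
  sInf {ε : ℝ | 0 < ε ∧ ∃ w : Fin (2 ^ n) → W,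
    S '' Metric.closedBall (0 : Z) 1 ⊆ ⋃ k, Metric.closedBall (w k) ε}

/-- The adjoint `T* : Y* → X*`, `T* f = f ∘ T`, between the duals with their norms. -/
noncomputable def adjointMap {𝕜 X Y : Type*} [RCLike 𝕜] [NormedAddCommGroup X] [NormedSpace 𝕜 X]
    [NormedAddCommGroup Y] [NormedSpace 𝕜 Y] (T : X →L[𝕜] Y) :
    (Y →L[𝕜] 𝕜) →L[𝕜] (X →L[𝕜] 𝕜) :=
  (ContinuousLinearMap.compL 𝕜 X Y 𝕜).flip T

end Pool.Agent.Work.MP_c13439_an
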