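import Mathlib

set_option autoImplicit false

namespace Pool.Agent.Work.MP_c13439_an

open Finset

theorem exp_le_quad {x : ℝ} (hx : |x| ≤ 1) : Real.exp x ≤ 1 + x + x ^ 2 := by
  have h := Real.abs_exp_sub_one_sub_id_le hx
  have h2 := (abs_le.1 h).2
  linarith

/-- The potential of the derandomised sampling. -/
noncomputable def pot {γ : Type*} [Fintype γ] (θ : ℝ) (S : γ → ℝ) : ℝ :=
  ∑ g, (Real.exp (θ * S g) + Real.exp (-(θ * S g)))

theorem pot_nonneg {γ : Type*} [Fintype γ] (θ : ℝ) (S : γ → ℝ) : 0 ≤ pot θ S :=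
  Finset.sum_nonneg fun g _ => by positivity

theorem pot_step {ι γ : Type*} [Fintype ι] [Fintype γ] (lam : ι → ℝ) (hlam : ∀ i, 0 ≤ lam i)
    (hsum : ∑ i, lam i = 1) (b : ι → γ → ℝ) (B θ : ℝ) (hθ : 0 ≤ θ) (hθB : θ * B ≤ 1)
    (hb : ∀ i g, |b i g| ≤ B) (hmean : ∀ g, ∑ i, lam i * b i g = 0) (S : γ → ℝ) :
    ∃ i, pot θ (fun g => S g + b i g) ≤ (1 + (θ * B) ^ 2) * pot θ S := by
  by_contra hcon
  push Not at hcon
  have hpos : ∃ i ∈ (Finset.univ : Finset ι), 0 < lam i := by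
    by_contra h
    push Not at h
    have : ∑ i, lam i ≤ 0 := Finset.sum_nonpos h
    linarith
  have h1 : (1 + (θ * B) ^ 2) * pot θ S < ∑ i, lam i * pot θ (fun g => S g + b i g) := by
    have h2 : (1 + (θ * B) ^ 2) * pot θ S = ∑ i, lam i * ((1 + (θ * B) ^ 2) * pot θ S) := by
      rw [← Finset.sum_mul, hsum, one_mul]
    rw [h2]
    obtain ⟨i0, _, hi0⟩ := hpos
    refine Finset.sum_lt_sum (fun i _ => mul_le_mul_of_nonneg_left (hcon i).le (hlam i)) ⟨i0, Finset.mem_univ _, ?_⟩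
    exact mul_lt_mul_of_pos_left (hcon i0) hi0
  have h3 : ∑ i, lam i * pot θ (fun g => S g + b i g) ≤ (1 + (θ * B) ^ 2) * pot θ S := by
    unfold pot
    rw [Finset.mul_sum]
    simp_rw [Finset.mul_sum]
    rw [Finset.sum_comm]
    refine Finset.sum_le_sum fun g _ => ?_
    have hkey : ∀ (σ : ℝ), |σ| = 1 → ∑ i, lam i * Real.exp (σ * (θ * b i g)) ≤ 1 + (θ * B) ^ 2 := by
      intro σ hσ
      have hle : ∀ i, lam i * Real.exp (σ * (θ * b i g)) ≤
          lam i + σ * θ * (lam i * b i g) + lam i * (θ * B) ^ 2 := by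
        intro i
        have hab : |θ * b i g| ≤ θ * B := by
          rw [abs_mul, abs_of_nonneg hθ]
          exact mul_le_mul_of_nonneg_left (hb i g) hθ
        have hx : |σ * (θ * b i g)| ≤ θ * B := by
          rw [abs_mul, hσ, one_mul]; exact hab
        have h4 := exp_le_quad (le_trans hx hθB)
        have h5 : (σ * (θ * b i g)) ^ 2 ≤ (θ * B) ^ 2 := by
          rw [← sq_abs]
          exact pow_le_pow_left₀ (abs_nonneg _) hx 2
        have h6 : Real.exp (σ * (θ * b i g)) ≤ 1 + σ * (θ * b i g) + (θ * B) ^ 2 := by linarith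
        have h7 := mul_le_mul_of_nonneg_left h6 (hlam i)
        nlinarith [h7]
      calc ∑ i, lam i * Real.exp (σ * (θ * b i g)) ≤
          ∑ i, (lam i + σ * θ * (lam i * b i g) + lam i * (θ * B) ^ 2) :=
            Finset.sum_le_sum fun i _ => hle i
        _ = ∑ i, lam i + σ * θ * ∑ i, lam i * b i g + (∑ i, lam i) * (θ * B) ^ 2 := by
            rw [Finset.sum_add_distrib, Finset.sum_add_distrib, Finset.mul_sum, Finset.sum_mul]
        _ = 1 + (θ * B) ^ 2 := by rw [hsum, hmean g]; ring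
    have e1 : ∀ i, lam i * (Real.exp (θ * (S g + b i g)) + Real.exp (-(θ * (S g + b i g)))) =
        Real.exp (θ * S g) * (lam i * Real.exp (1 * (θ * b i g))) +
        Real.exp (-(θ * S g)) * (lam i * Real.exp ((-1) * (θ * b i g))) := by
      intro i
      have a1 : θ * (S g + b i g) = θ * S g + 1 * (θ * b i g) := by ring
      have a2 : -(θ * (S g + b i g)) = -(θ * S g) + (-1) * (θ * b i g) := by ring
      rw [a1, Real.exp_add]
      have a3 : -(θ * S g + 1 * (θ * b i g)) = -(θ * S g) + (-1) * (θ * b i g) := by ring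
      rw [a3, Real.exp_add]
      ring
    calc ∑ i, lam i * (Real.exp (θ * (S g + b i g)) + Real.exp (-(θ * (S g + b i g))))
        = Real.exp (θ * S g) * (∑ i, lam i * Real.exp (1 * (θ * b i g))) +
        Real.exp (-(θ * S g)) * (∑ i, lam i * Real.exp ((-1) * (θ * b i g))) := by
          rw [Finset.mul_sum, Finset.mul_sum, ← Finset.sum_add_distrib]
          exact Finset.sum_congr rfl fun i _ => e1 i
      _ ≤ Real.exp (θ * S g) * (1 + (θ * B) ^ 2) + Real.exp (-(θ * S g)) * (1 + (θ * B) ^ 2) := by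
          have k1 := hkey 1 (by norm_num)
          have k2 := hkey (-1) (by norm_num)
          have q1 := mul_le_mul_of_nonneg_left k1 (Real.exp_pos (θ * S g)).le
          have q2 := mul_le_mul_of_nonneg_left k2 (Real.exp_pos (-(θ * S g))).le
          exact add_le_add q1 q2
      _ = (1 + (θ * B) ^ 2) * (Real.exp (θ * S g) + Real.exp (-(θ * S g))) := by ring
  exact absurd h1 (not_lt.2 h3)

theorem pot_iter {ι γ : Type*} [Fintype ι] [Fintype γ] (lam : ι → ℝ) (hlam : ∀ i, 0 ≤ lam i)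
    (hsum : ∑ i, lam i = 1) (b : ι → γ → ℝ) (B θ : ℝ) (hθ : 0 ≤ θ) (hθB : θ * B ≤ 1)
    (hb : ∀ i g, |b i g| ≤ B) (hmean : ∀ g, ∑ i, lam i * b i g = 0) (n : ℕ) :
    ∃ f : Fin n → ι, pot θ (fun g => ∑ l, b (f l) g) ≤
      (1 + (θ * B) ^ 2) ^ n * (2 * (Fintype.card γ : ℝ)) := by
  induction n with
  | zero =>
    refine ⟨fun l => l.elim0, ?_⟩
    simp [pot, mul_comm]
    ring_nf
    exact le_rfl
  | succ n ih =>
    obtain ⟨f, hf⟩ := ih
    obtain ⟨i, hi⟩ := pot_step lam hlam hsum b B θ hθ hθB hb hmean (fun g => ∑ l, b (f l) g)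
    refine ⟨Fin.snoc f i, ?_⟩
    have e : (fun g => ∑ l : Fin (n + 1), b ((Fin.snoc f i : Fin (n + 1) → ι) l) g) =
        fun g => (∑ l, b (f l) g) + b i g := by
      funext g
      rw [Fin.sum_univ_castSucc]
      simp
    rw [e]
    refine hi.trans ?_
    rw [pow_succ]
    have hnn : (0 : ℝ) ≤ 1 + (θ * B) ^ 2 := by positivity
    calc (1 + (θ * B) ^ 2) * pot θ (fun g => ∑ l, b (f l) g)
        ≤ (1 + (θ * B) ^ 2) * ((1 + (θ * B) ^ 2) ^ n * (2 * (Fintype.card γ : ℝ))) :=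
          mul_le_mul_of_nonneg_left hf hnn
      _ = (1 + (θ * B) ^ 2) ^ n * (1 + (θ * B) ^ 2) * (2 * (Fintype.card γ : ℝ)) := by ring

/-- Maurey's sampling lemma, derandomised. -/
theorem sampling {ι γ : Type*} [Fintype ι] [Fintype γ] (lam : ι → ℝ) (hlam : ∀ i, 0 ≤ lam i)
    (hsum : ∑ i, lam i = 1) (a : ι → γ → ℝ) (B η : ℝ) (hη : 0 < η) (hηB : η ≤ B)
    (ha : ∀ i g, |a i g| ≤ B) (n : ℕ)
    (hn : 16 * (B / η) ^ 2 * Real.log (2 * (Fintype.card γ : ℝ)) ≤ n) :
    ∃ f : Fin n → ι, ∀ g, |∑ l, a (f l) g - n * ∑ i, lam i * a i g| ≤ n * η := by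
  have hB : 0 < B := lt_of_lt_of_le hη hηB
  set abar : γ → ℝ := fun g => ∑ i, lam i * a i g with habar
  have habarle : ∀ g, |abar g| ≤ B := by
    intro g
    calc |abar g| ≤ ∑ i, |lam i * a i g| := Finset.abs_sum_le_sum_abs _ _
      _ ≤ ∑ i, lam i * B := by
          refine Finset.sum_le_sum fun i _ => ?_
          rw [abs_mul, abs_of_nonneg (hlam i)]
          exact mul_le_mul_of_nonneg_left (ha i g) (hlam i)
      _ = B := by rw [← Finset.sum_mul, hsum, one_mul]
  set b : ι → γ → ℝ := fun i g => a i g - abar g with hbdef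
  have hb : ∀ i g, |b i g| ≤ 2 * B := by
    intro i g
    have := abs_sub (a i g) (abar g)
    calc |b i g| ≤ |a i g| + |abar g| := by
          simpa [hbdef] using this
      _ ≤ 2 * B := by linarith [ha i g, habarle g]
  have hmean : ∀ g, ∑ i, lam i * b i g = 0 := by
    intro g
    simp only [hbdef, mul_sub, Finset.sum_sub_distrib, ← Finset.sum_mul, hsum, one_mul]
    simp [habar]
  set θ : ℝ := η / (8 * B ^ 2) with hθdef
  have hθpos : 0 < θ := by positivity
  have hθB : θ * (2 * B) ≤ 1 := by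
    have : θ * (2 * B) = η / (4 * B) := by
      rw [hθdef]; field_simp; ring
    rw [this, div_le_one (by positivity)]
    linarith
  obtain ⟨f, hf⟩ := pot_iter lam hlam hsum b (2 * B) θ hθpos.le hθB hb hmean n
  refine ⟨f, fun g => ?_⟩
  set S : ℝ := ∑ l, b (f l) g with hS
  have hSeq : ∑ l, a (f l) g - n * ∑ i, lam i * a i g = S := by
    simp [hS, hbdef, habar, Finset.sum_sub_distrib]
  rw [hSeq]
  have hγpos : 0 < (Fintype.card γ : ℝ) := by
    have : 0 < Fintype.card γ := Fintype.card_pos_iff.2 ⟨g⟩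
    exact_mod_cast this
  have h1 : Real.exp (θ * |S|) ≤ pot θ (fun g => ∑ l, b (f l) g) := by
    have h2 : Real.exp (θ * |S|) ≤ Real.exp (θ * S) + Real.exp (-(θ * S)) := by
      rcases le_total 0 S with h | h
      · rw [abs_of_nonneg h]
        linarith [Real.exp_pos (-(θ * S))]
      · rw [abs_of_nonpos h]
        have : θ * -S = -(θ * S) := by ring
        rw [this]
        linarith [Real.exp_pos (θ * S)]
    refine h2.trans ?_
    unfold pot
    exact Finset.single_le_sum (f := fun g => Real.exp (θ * ∑ l, b (f l) g) + Real.exp (-(θ * ∑ l, b (f l) g)))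
      (fun g _ => by positivity) (Finset.mem_univ g)
  have h3 : (1 + (θ * (2 * B)) ^ 2) ^ n ≤ Real.exp (n * (θ * (2 * B)) ^ 2) := by
    have h4 : 1 + (θ * (2 * B)) ^ 2 ≤ Real.exp ((θ * (2 * B)) ^ 2) := by
      linarith [Real.add_one_le_exp ((θ * (2 * B)) ^ 2)]
    calc (1 + (θ * (2 * B)) ^ 2) ^ n ≤ (Real.exp ((θ * (2 * B)) ^ 2)) ^ n :=
          pow_le_pow_left₀ (by positivity) h4 n
      _ = Real.exp (n * (θ * (2 * B)) ^ 2) := by rw [← Real.exp_nat_mul]
  have h5 : Real.exp (θ * |S|) ≤ Real.exp (n * (θ * (2 * B)) ^ 2 + Real.log (2 * (Fintype.card γ : ℝ))) := by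
    rw [Real.exp_add, Real.exp_log (by positivity)]
    refine (h1.trans hf).trans ?_
    exact mul_le_mul_of_nonneg_right h3 (by positivity)
  have h6 : θ * |S| ≤ n * (θ * (2 * B)) ^ 2 + Real.log (2 * (Fintype.card γ : ℝ)) := Real.exp_le_exp.1 h5
  -- conclude
  have h7 : |S| ≤ n * (4 * B ^ 2 * θ) + Real.log (2 * (Fintype.card γ : ℝ)) / θ := by
    have : |S| ≤ (n * (θ * (2 * B)) ^ 2 + Real.log (2 * (Fintype.card γ : ℝ))) / θ := by
      rw [le_div_iff₀ hθpos]; linarith
    refine this.trans (le_of_eq ?_)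
    field_simp
    ring
  have h8 : (n : ℝ) * (4 * B ^ 2 * θ) = n * (η / 2) := by
    rw [hθdef]; field_simp; ring
  have h9 : Real.log (2 * (Fintype.card γ : ℝ)) / θ = 8 * (B / η) ^ 2 * Real.log (2 * (Fintype.card γ : ℝ)) * η := by
    rw [hθdef]; field_simp
  rw [h8, h9] at h7
  have h10 : 8 * (B / η) ^ 2 * Real.log (2 * (Fintype.card γ : ℝ)) * η ≤ n / 2 * η := by
    refine mul_le_mul_of_nonneg_right ?_ hη.le
    linarith
  linarith

end Pool.Agent.Work.MP_c13439_an
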