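import Mathlib

set_option autoImplicit false

namespace Pool.Agent.Work.MP_c13439_an

open Finset

theorem norm_le_of_re {𝕜 X : Type*} [RCLike 𝕜] [NormedAddCommGroup X] [NormedSpace 𝕜 X]
    (f : X →L[𝕜] 𝕜) (r : ℝ) (hr : 0 ≤ r) (h : ∀ x : X, ‖x‖ ≤ 1 → RCLike.re (f x) ≤ r) : ‖f‖ ≤ r := by
  have h1 : ∀ x : X, ‖x‖ ≤ 1 → ‖f x‖ ≤ r := by
    intro x hx
    rcases eq_or_ne (f x) 0 with h0 | h0
    · rw [h0, norm_zero]; exact hr
    · have hn : (‖f x‖ : ℝ) ≠ 0 := norm_ne_zero_iff.2 h0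
      set c : 𝕜 := (starRingEnd 𝕜) (f x) / ((‖f x‖ : ℝ) : 𝕜) with hc
      have hcn : ‖c‖ = 1 := by
        rw [hc, norm_div, RCLike.norm_conj, RCLike.norm_ofReal, abs_of_nonneg (norm_nonneg _)]
        exact div_self hn
      have h2 : f (c • x) = ((‖f x‖ : ℝ) : 𝕜) := by
        rw [map_smul, smul_eq_mul, hc, div_mul_eq_mul_div, RCLike.conj_mul]
        have : ((‖f x‖ : ℝ) : 𝕜) ≠ 0 := by
          exact_mod_cast hn
        field_simp
      have h3 := h (c • x) (by rw [norm_smul, hcn, one_mul]; exact hx)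
      rw [h2, RCLike.ofReal_re] at h3
      exact h3
  refine ContinuousLinearMap.opNorm_le_bound f hr fun x => ?_
  rcases eq_or_ne x 0 with h0 | h0
  · simp [h0]
  · have hx : ‖x‖ ≠ 0 := norm_ne_zero_iff.2 h0
    have hxk : ((‖x‖ : ℝ) : 𝕜) ≠ 0 := by exact_mod_cast hx
    have h2 := h1 ((((‖x‖ : ℝ) : 𝕜)⁻¹) • x) (by
      rw [norm_smul, norm_inv, RCLike.norm_ofReal, abs_of_nonneg (norm_nonneg _), inv_mul_cancel₀ hx])
    rw [map_smul, norm_smul, norm_inv, RCLike.norm_ofReal, abs_of_nonneg (norm_nonneg _)] at h2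
    have h3 : ‖f x‖ = ‖x‖ * (‖x‖⁻¹ * ‖f x‖) := by field_simp
    rw [h3, mul_comm]
    exact mul_le_mul_of_nonneg_right h2 (norm_nonneg _)

/-- Either a point of the unit ball has real part `> r` against all functionals, or a convex
combination of them has norm `≤ r`. -/
theorem sep_or_hull {𝕜 X : Type*} [RCLike 𝕜] [NormedAddCommGroup X] [NormedSpace 𝕜 X] {m : ℕ}
    (u : Fin m → (X →L[𝕜] 𝕜)) (r : ℝ) (hr : 0 ≤ r) :
    (∃ x : X, ‖x‖ ≤ 1 ∧ ∀ i, r < RCLike.re (u i x)) ∨
    (∃ lam : Fin m → ℝ, (∀ i, 0 ≤ lam i) ∧ ∑ i, lam i = 1 ∧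
      ‖∑ i, ((lam i : ℝ) : 𝕜) • u i‖ ≤ r) := by
  by_cases hcase : ∃ x : X, ‖x‖ ≤ 1 ∧ ∀ i, r < RCLike.re (u i x)
  · exact Or.inl hcase
  right
  push Not at hcase
  set C : Set (Fin m → ℝ) := {v | ∃ x : X, ‖x‖ ≤ 1 ∧ ∀ i, v i = RCLike.re (u i x)} with hC
  set U : Set (Fin m → ℝ) := {v | ∀ i, r < v i} with hU
  have hCconv : Convex ℝ C := by
    intro v hv w hw a b ha hb hab
    obtain ⟨x, hx, hvx⟩ := hv
    obtain ⟨y, hy, hwy⟩ := hw
    refine ⟨((a : ℝ) : 𝕜) • x + ((b : ℝ) : 𝕜) • y, ?_, fun i => ?_⟩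
    · calc ‖((a : ℝ) : 𝕜) • x + ((b : ℝ) : 𝕜) • y‖ ≤ ‖((a : ℝ) : 𝕜) • x‖ + ‖((b : ℝ) : 𝕜) • y‖ := norm_add_le _ _
        _ = a * ‖x‖ + b * ‖y‖ := by
          rw [norm_smul, norm_smul, RCLike.norm_ofReal, RCLike.norm_ofReal, abs_of_nonneg ha, abs_of_nonneg hb]
        _ ≤ a * 1 + b * 1 := by gcongr
        _ = 1 := by linarith
    · simp only [Pi.add_apply, Pi.smul_apply, smul_eq_mul, map_add, map_smul, RCLike.re_ofReal_mul]
      rw [hvx i, hwy i]
  have hUconv : Convex ℝ U := by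
    intro v hv w hw a b ha hb hab i
    have h1 := hv i
    have h2 := hw i
    simp only [Pi.add_apply, Pi.smul_apply, smul_eq_mul]
    rcases eq_or_lt_of_le ha with h0 | h0
    · subst h0
      have : b = 1 := by linarith
      subst this
      simpa using h2
    · nlinarith [mul_lt_mul_of_pos_left h1 h0, mul_le_mul_of_nonneg_left h2.le hb]
  have hUopen : IsOpen U := by
    have : U = ⋂ i, {v : Fin m → ℝ | r < v i} := by
      ext v; simp [hU]
    rw [this]
    exact isOpen_iInter_of_finite fun i => isOpen_lt continuous_const (continuous_apply i)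
  have hdisj : Disjoint U C := by
    rw [Set.disjoint_left]
    rintro v hv ⟨x, hx, hvx⟩
    obtain ⟨i, hi⟩ := hcase x hx
    have := hv i
    rw [hvx i] at this
    exact absurd this (not_lt.2 hi)
  obtain ⟨f, c, hfU, hfC⟩ := geometric_hahn_banach_open hUconv hUopen hCconv hdisj
  have hfrep : ∀ v : Fin m → ℝ, f v = ∑ i, v i * f (Pi.single i 1) := by
    intro v
    have := LinearMap.pi_apply_eq_sum_univ f.toLinearMap v
    have h2 : ∀ i : Fin m, (fun j => if i = j then (1 : ℝ) else 0) = Pi.single i 1 := by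
      intro i
      funext j
      by_cases h : i = j
      · subst h; simp
      · simp [h, Pi.single_apply, Ne.symm h, eq_comm]
    simp only [h2, smul_eq_mul] at this
    exact this
  set μ : Fin m → ℝ := fun i => - f (Pi.single i 1) with hμ
  have hfμ : ∀ v : Fin m → ℝ, f v = - ∑ i, μ i * v i := by
    intro v
    rw [hfrep v, ← Finset.sum_neg_distrib]
    refine Finset.sum_congr rfl fun i _ => ?_
    simp [hμ]; ring
  have hμnn : ∀ i, 0 ≤ μ i := by
    intro i
    by_contra hneg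
    push Not at hneg
    set t : ℝ := max 0 ((c - f (fun _ => r + 1)) / (- μ i)) with ht
    have ht0 : 0 ≤ t := le_max_left _ _
    have hmem : (fun j => (r + 1) + t * (Pi.single i (1 : ℝ) : Fin m → ℝ) j) ∈ U := by
      intro j
      have : 0 ≤ t * (Pi.single i (1 : ℝ) : Fin m → ℝ) j := by
        by_cases h : j = i
        · subst h; simpa using ht0
        · simp [Pi.single_apply, h]
      linarith
    have h1 := hfU _ hmem
    have h2 : (fun j => (r + 1) + t * (Pi.single i (1 : ℝ) : Fin m → ℝ) j) =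
        (fun _ => r + 1) + t • (Pi.single i (1 : ℝ) : Fin m → ℝ) := by
      funext j; simp
    rw [h2, map_add, map_smul, smul_eq_mul] at h1
    have h3 : f (Pi.single i 1) = - μ i := by simp [hμ]
    rw [h3] at h1
    have h4 : (c - f (fun _ => r + 1)) / (- μ i) ≤ t := le_max_right _ _
    rw [div_le_iff₀ (by linarith)] at h4
    linarith
  set M : ℝ := ∑ i, μ i with hM
  have hMnn : 0 ≤ M := Finset.sum_nonneg fun i _ => hμnn i
  have h0C : (0 : Fin m → ℝ) ∈ C := ⟨0, by simp, fun i => by simp⟩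
  have hc0 : c ≤ 0 := by
    have := hfC 0 h0C
    simpa using this
  have hconst : ∀ δ : ℝ, 0 < δ → -((r + δ) * M) < c := by
    intro δ hδ
    have h1 := hfU (fun _ => r + δ) (fun i => by linarith)
    rw [hfμ] at h1
    have : ∑ i, μ i * (r + δ) = (r + δ) * M := by
      rw [← Finset.sum_mul, mul_comm]
    rw [this] at h1
    exact h1
  have hMpos : 0 < M := by
    rcases eq_or_lt_of_le hMnn with h | h
    · exfalso
      have h1 := hconst 1 one_pos
      rw [← h] at h1
      linarith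
    · exact h
  refine ⟨fun i => μ i / M, fun i => div_nonneg (hμnn i) hMnn, ?_, ?_⟩
  · rw [← Finset.sum_div]; exact div_self hMpos.ne'
  · refine norm_le_of_re _ r hr fun x hx => ?_
    have hxC : (fun i => RCLike.re (u i x)) ∈ C := ⟨x, hx, fun i => rfl⟩
    have h1 := hfC _ hxC
    rw [hfμ] at h1
    have h2 : ∑ i, μ i * RCLike.re (u i x) ≤ r * M := by
      refine le_of_forall_pos_le_add fun ε hε => ?_
      have h3 := hconst (ε / M) (by positivity)
      have h4 : (r + ε / M) * M = r * M + ε := by field_simp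
      rw [h4] at h3
      linarith
    have h5 : RCLike.re ((∑ i, (((μ i / M : ℝ)) : 𝕜) • u i) x) = (∑ i, μ i * RCLike.re (u i x)) / M := by
      rw [ContinuousLinearMap.sum_apply, map_sum, Finset.sum_div]
      refine Finset.sum_congr rfl fun i _ => ?_
      rw [ContinuousLinearMap.smul_apply, smul_eq_mul, RCLike.re_ofReal_mul]
      ring
    rw [h5, div_le_iff₀ hMpos]
    exact h2

end Pool.Agent.Work.MP_c13439_an
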