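import Mathlib
import Pool.Agent.Work.MP_c13439_an.Sampling
import Pool.Agent.Work.MP_c13439_an.Sep

set_option autoImplicit false

namespace Pool.Agent.Work.MP_c13439_an

open Finset

section

variable {𝕜 X Y : Type*} [RCLike 𝕜] [NormedAddCommGroup X] [NormedSpace 𝕜 X]
  [NormedAddCommGroup Y] [NormedSpace 𝕜 Y]

/-- Chains: pairs `(y_j, x_j)` such that `x_j` separates `y_j` from all earlier `y_i`. -/
def Chain (T : X →L[𝕜] Y) (D : Set (Y →L[𝕜] 𝕜)) (r : ℝ) (m : ℕ)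
    (y : Fin m → (Y →L[𝕜] 𝕜)) (x : Fin m → X) : Prop :=
  (∀ j, y j ∈ D) ∧ (∀ j, ‖x j‖ ≤ 1) ∧ ∀ i j, i < j → r < RCLike.re ((y j - y i) (T (x j)))

theorem chain_bound (T : X →L[𝕜] Y) (D : Set (Y →L[𝕜] 𝕜)) (r ρ : ℝ) (hr : 0 < r)
    (hD1 : ∀ y ∈ D, ‖y‖ ≤ 1) (hDB : ∀ y ∈ D, ‖y.comp T‖ ≤ 16 * r) (N : ℕ) (w : Fin N → Y)
    (cover : ∀ x : X, ‖x‖ ≤ 1 → ∃ c, ‖T x - w c‖ ≤ ρ) (hρ : 4 * ρ ≤ r) (m : ℕ)
    (y : Fin m → (Y →L[𝕜] 𝕜)) (x : Fin m → X) (h : Chain T D r m y x) : m ≤ 65 * N := by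
  obtain ⟨hyD, hx, hsep⟩ := h
  by_contra hlt
  push Not at hlt
  choose c hc using fun j => cover (x j) (hx j)
  set v : Fin m → ℝ := fun j => RCLike.re ((y j) (T (x j))) with hv
  have hvabs : ∀ j, |v j| ≤ 16 * r := by
    intro j
    have h1 : ‖(y j) (T (x j))‖ ≤ 16 * r := by
      have h2 : ‖((y j).comp T) (x j)‖ ≤ ‖(y j).comp T‖ * ‖x j‖ := ContinuousLinearMap.le_opNorm _ _
      have h3 : ‖(y j).comp T‖ * ‖x j‖ ≤ 16 * r * 1 :=
        mul_le_mul (hDB _ (hyD j)) (hx j) (norm_nonneg _) (by positivity)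
      simpa using h2.trans h3
    exact (RCLike.abs_re_le_norm _).trans h1
  set F : Fin m → ℤ × Fin N := fun j => (⌊v j / (r / 2)⌋, c j) with hF
  obtain ⟨I, hI⟩ : ∃ I : Finset ℤ, I = Finset.Icc (-32 : ℤ) 32 := ⟨_, rfl⟩
  have hIcard : I.card = 65 := by
    rw [hI, Int.card_Icc]; rfl
  have hmaps : ∀ j ∈ (Finset.univ : Finset (Fin m)),
      F j ∈ I ×ˢ (Finset.univ : Finset (Fin N)) := by
    intro j _
    rw [Finset.mem_product]
    refine ⟨?_, Finset.mem_univ _⟩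
    rw [hI]
    have h1 := abs_le.1 (hvabs j)
    rw [Finset.mem_Icc]
    constructor
    · rw [Int.le_floor, le_div_iff₀ (by positivity)]
      push_cast
      linarith [h1.1]
    · have : v j / (r / 2) ≤ 32 := by
        rw [div_le_iff₀ (by positivity)]; linarith [h1.2]
      have h2 : (⌊v j / (r / 2)⌋ : ℝ) ≤ 32 := (Int.floor_le _).trans this
      exact_mod_cast h2
  have hcard : (I ×ˢ (Finset.univ : Finset (Fin N))).card <
      (Finset.univ : Finset (Fin m)).card := by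
    rw [Finset.card_product, hIcard]
    simp only [Finset.card_univ, Fintype.card_fin]
    exact hlt
  obtain ⟨i, _, j, _, hij, hFij⟩ := Finset.exists_ne_map_eq_of_card_lt_of_maps_to hcard hmaps
  have key : ∀ i j : Fin m, i < j → F i = F j → False := by
    intro i j hlt hFij
    have hfl : ⌊v i / (r / 2)⌋ = ⌊v j / (r / 2)⌋ := congrArg Prod.fst hFij
    have hcc : c i = c j := congrArg Prod.snd hFij
    have h1 := Int.abs_sub_lt_one_of_floor_eq_floor hfl
    rw [← sub_div, abs_div, div_lt_one (by positivity), abs_of_pos (by positivity : (0:ℝ) < r / 2)] at h1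
    have h2 := (abs_lt.1 h1).1
    have h3 := hsep i j hlt
    have h4 : RCLike.re ((y j - y i) (T (x j))) = v j - RCLike.re ((y i) (T (x j))) := by
      simp [hv]
    rw [h4] at h3
    have h5 : ‖T (x i) - T (x j)‖ ≤ 2 * ρ := by
      have h6 := hc i
      have h7 := hc j
      rw [hcc] at h6
      calc ‖T (x i) - T (x j)‖ = ‖(T (x i) - w (c j)) - (T (x j) - w (c j))‖ := by congr 1; abel
        _ ≤ ‖T (x i) - w (c j)‖ + ‖T (x j) - w (c j)‖ := norm_sub_le _ _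
        _ ≤ 2 * ρ := by linarith
    have h8 : RCLike.re ((y i) (T (x i) - T (x j))) ≤ 2 * ρ := by
      have h9 : ‖(y i) (T (x i) - T (x j))‖ ≤ ‖y i‖ * ‖T (x i) - T (x j)‖ := ContinuousLinearMap.le_opNorm _ _
      have h10 : ‖y i‖ * ‖T (x i) - T (x j)‖ ≤ 1 * (2 * ρ) :=
        mul_le_mul (hD1 _ (hyD i)) h5 (norm_nonneg _) (by norm_num)
      calc RCLike.re ((y i) (T (x i) - T (x j))) ≤ ‖(y i) (T (x i) - T (x j))‖ := RCLike.re_le_norm _
        _ ≤ 2 * ρ := by linarith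
    have h11 : RCLike.re ((y i) (T (x i) - T (x j))) = v i - RCLike.re ((y i) (T (x j))) := by
      simp [hv]
    rw [h11] at h8
    linarith
  rcases lt_or_gt_of_ne hij with h | h
  · exact key i j h hFij
  · exact key j i h hFij.symm

theorem exists_hull (T : X →L[𝕜] Y) (D : Set (Y →L[𝕜] 𝕜)) (r ρ : ℝ) (hr : 0 < r)
    (hD1 : ∀ y ∈ D, ‖y‖ ≤ 1) (hDB : ∀ y ∈ D, ‖y.comp T‖ ≤ 16 * r) (N : ℕ) (w : Fin N → Y)
    (cover : ∀ x : X, ‖x‖ ≤ 1 → ∃ c, ‖T x - w c‖ ≤ ρ) (hρ : 4 * ρ ≤ r) :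
    ∃ m ≤ 65 * N, ∃ y : Fin m → (Y →L[𝕜] 𝕜), (∀ i, y i ∈ D) ∧ ∀ z ∈ D, ∃ lam : Fin m → ℝ,
      (∀ i, 0 ≤ lam i) ∧ ∑ i, lam i = 1 ∧ ‖(z - ∑ i, ((lam i : ℝ) : 𝕜) • y i).comp T‖ ≤ r := by
  classical
  set P : ℕ → Prop := fun m => ∃ y : Fin m → (Y →L[𝕜] 𝕜), ∃ x : Fin m → X, Chain T D r m y x with hP
  have hP0 : P 0 := ⟨fun j => j.elim0, fun j => j.elim0, fun j => j.elim0, fun j => j.elim0, fun i => i.elim0⟩
  have hbound : ∀ m, P m → m ≤ 65 * N := by
    rintro m ⟨y, x, h⟩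
    exact chain_bound T D r ρ hr hD1 hDB N w cover hρ m y x h
  have hex : ∃ m, ¬ P m := ⟨65 * N + 1, fun h => by have := hbound _ h; omega⟩
  have hfind := Nat.find_spec hex
  have hne : Nat.find hex ≠ 0 := by
    intro h0
    rw [h0] at hfind
    exact hfind hP0
  obtain ⟨m, hm⟩ := Nat.exists_eq_succ_of_ne_zero hne
  have hPm : P m := by
    by_contra h
    have := Nat.find_min' hex h
    omega
  have hPm1 : ¬ P (m + 1) := by
    rw [hm] at hfind
    exact hfind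
  obtain ⟨y, x, hyD, hx, hsep⟩ := id hPm
  refine ⟨m, hbound m hPm, y, hyD, fun z hz => ?_⟩
  rcases sep_or_hull (fun i => (z - y i).comp T) r hr.le with ⟨x0, hx0, h0⟩ | ⟨lam, hl, hs, hn⟩
  · exfalso
    refine hPm1 ⟨Fin.snoc y z, Fin.snoc x x0, ?_, ?_, ?_⟩
    · intro j
      refine Fin.lastCases ?_ (fun j => ?_) j
      · simpa using hz
      · simpa using hyD j
    · intro j
      refine Fin.lastCases ?_ (fun j => ?_) j
      · simpa using hx0
      · simpa using hx j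
    · intro i j
      refine Fin.lastCases ?_ (fun j => ?_) j
      · refine Fin.lastCases ?_ (fun i => ?_) i
        · intro h; exact absurd h (lt_irrefl _)
        · intro _
          simpa using h0 i
      · refine Fin.lastCases ?_ (fun i => ?_) i
        · intro h
          exact absurd h (not_lt.2 (Fin.le_last _))
        · intro h
          have := hsep i j (by simpa using h)
          simpa using this
  · refine ⟨lam, hl, hs, ?_⟩
    have e : (z - ∑ i, ((lam i : ℝ) : 𝕜) • y i).comp T = ∑ i, ((lam i : ℝ) : 𝕜) • (z - y i).comp T := by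
      have h1 : z = ∑ i, ((lam i : ℝ) : 𝕜) • z := by
        rw [← Finset.sum_smul]
        have : ∑ i, ((lam i : ℝ) : 𝕜) = 1 := by
          rw [← RCLike.ofReal_sum, hs, RCLike.ofReal_one]
        rw [this, one_smul]
      ext v
      simp only [ContinuousLinearMap.comp_apply, sub_apply,
        _root_.sum_apply, smul_apply, smul_eq_mul, mul_sub,
        Finset.sum_sub_distrib]
      congr 1
      rw [← Finset.sum_mul]
      have : ∑ i, ((lam i : ℝ) : 𝕜) = 1 := by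
        rw [← RCLike.ofReal_sum, hs, RCLike.ofReal_one]
      rw [this, one_mul]
    rw [e]
    exact hn

theorem reindex {ι E : Type*} [Fintype ι] [Zero E] (M : ℕ) (hM : Fintype.card ι ≤ M) (V : ι → E) :
    ∃ W : Fin M → E, ∀ i, ∃ j, W j = V i := by
  classical
  set e := Fintype.equivFin ι
  refine ⟨fun j => if h : (j : ℕ) < Fintype.card ι then V (e.symm ⟨j, h⟩) else 0, fun i => ?_⟩
  have h1 : ((e i : Fin _) : ℕ) < Fintype.card ι := (e i).2
  refine ⟨⟨(e i : ℕ), lt_of_lt_of_le h1 hM⟩, ?_⟩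
  simp [e]

end

end Pool.Agent.Work.MP_c13439_an
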