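import Mathlib
import Pool.Agent.Work.MP_c13439_an.Scale

set_option autoImplicit false

namespace Pool.Agent.Work.MP_c13439_an

open Finset

section

variable {𝕜 X Y : Type*} [RCLike 𝕜] [NormedAddCommGroup X] [NormedSpace 𝕜 X]
  [NormedAddCommGroup Y] [NormedSpace 𝕜 Y]

theorem norm_comp_le_of_unit (T : X →L[𝕜] Y) (u : Y →L[𝕜] 𝕜) (r : ℝ) (hr : 0 ≤ r)
    (h : ∀ x : X, ‖x‖ ≤ 1 → ‖u (T x)‖ ≤ r) : ‖u.comp T‖ ≤ r := by
  refine norm_le_of_re _ r hr fun x hx => ?_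
  exact (RCLike.re_le_norm _).trans (h x hx)

theorem one_scale (T : X →L[𝕜] Y) (k : ℕ) (s : ℝ) (hs : 0 < s) (w : Fin (2 ^ k) → Y)
    (cover : ∀ x : X, ‖x‖ ≤ 1 → ∃ c, ‖T x - w c‖ ≤ s / 16) :
    ∃ W : Fin (2 ^ (65536 * (k + 7) ^ 2)) → (X →L[𝕜] 𝕜), ∀ y : Y →L[𝕜] 𝕜, ‖y‖ ≤ 1 →
      ‖y.comp T‖ ≤ 8 * s → ∃ i, ‖y.comp T - W i‖ ≤ s := by
  classical
  set D : Set (Y →L[𝕜] 𝕜) := {y | ‖y‖ ≤ 1 ∧ ‖y.comp T‖ ≤ 8 * s} with hD
  obtain ⟨m, hm, y, hyD, hhull⟩ := exists_hull T D (s / 2) (s / 16) (by positivity)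
    (fun y hy => hy.1) (fun y hy => by have := hy.2; linarith) (2 ^ k) w cover (by linarith)
  -- centres inside the image
  have hxc : ∀ c : Fin (2 ^ k), ∃ xc : X, ‖xc‖ ≤ 1 ∧
      ∀ x : X, ‖x‖ ≤ 1 → ‖T x - w c‖ ≤ s / 16 → ‖T x - T xc‖ ≤ s / 8 := by
    intro c
    by_cases h : ∃ x : X, ‖x‖ ≤ 1 ∧ ‖T x - w c‖ ≤ s / 16
    · obtain ⟨x0, hx0, h0⟩ := h
      refine ⟨x0, hx0, fun x _ hxw => ?_⟩
      calc ‖T x - T x0‖ = ‖(T x - w c) - (T x0 - w c)‖ := by congr 1; abel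
        _ ≤ ‖T x - w c‖ + ‖T x0 - w c‖ := norm_sub_le _ _
        _ ≤ s / 8 := by linarith
    · refine ⟨0, by simp, fun x hx hxw => absurd ⟨x, hx, hxw⟩ h⟩
  choose xc hxc1 hxc2 using hxc
  have hcov2 : ∀ x : X, ‖x‖ ≤ 1 → ∃ c, ‖T x - T (xc c)‖ ≤ s / 8 := by
    intro x hx
    obtain ⟨c, hc⟩ := cover x hx
    exact ⟨c, hxc2 c x hx hc⟩
  obtain ⟨n, hn⟩ : ∃ n : ℕ, n = 65536 * (k + 2) := ⟨_, rfl⟩
  have hnpos : (0 : ℝ) < n := by
    have : 0 < n := by omega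
    exact_mod_cast this
  obtain ⟨av, hav⟩ : ∃ av : (Fin n → Fin m) → (Y →L[𝕜] 𝕜), ∀ f, av f = (((n : ℝ)⁻¹ : ℝ) : 𝕜) • ∑ l, y (f l) :=
    ⟨_, fun f => rfl⟩
  obtain ⟨L, hL⟩ : ∃ L : ℕ, L = 65536 * (k + 7) ^ 2 := ⟨_, rfl⟩
  rw [← hL]
  have hLn : (k + 7) * n ≤ L := by
    rw [hn, hL]
    have : (k + 7) * (k + 2) ≤ (k + 7) ^ 2 := by
      rw [pow_two]
      exact Nat.mul_le_mul_left _ (by omega)
    calc (k + 7) * (65536 * (k + 2)) = 65536 * ((k + 7) * (k + 2)) := by ring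
      _ ≤ 65536 * (k + 7) ^ 2 := Nat.mul_le_mul_left _ this
  have hcardle : Fintype.card (Fin n → Fin m) ≤ 2 ^ L := by
    rw [Fintype.card_fun, Fintype.card_fin, Fintype.card_fin]
    have h1 : m ≤ 2 ^ (k + 7) := by
      calc m ≤ 65 * 2 ^ k := hm
        _ ≤ 128 * 2 ^ k := Nat.mul_le_mul_right _ (by norm_num)
        _ = 2 ^ (k + 7) := by rw [pow_add]; ring
    calc m ^ n ≤ (2 ^ (k + 7)) ^ n := Nat.pow_le_pow_left h1 n
      _ = 2 ^ ((k + 7) * n) := by rw [← pow_mul]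
      _ ≤ 2 ^ L := Nat.pow_le_pow_right (by norm_num) hLn
  obtain ⟨W, hW⟩ := reindex (2 ^ L) hcardle (fun f => (av f).comp T)
  refine ⟨W, fun z hz1 hz2 => ?_⟩
  obtain ⟨lam, hl, hsum, hnorm⟩ := hhull z ⟨hz1, hz2⟩
  set zz : Y →L[𝕜] 𝕜 := ∑ i, ((lam i : ℝ) : 𝕜) • y i with hzz
  -- the functionals
  set a : Fin m → (Fin (2 ^ k) × Bool) → ℝ := fun i g =>
    if g.2 then RCLike.im ((y i) (T (xc g.1))) else RCLike.re ((y i) (T (xc g.1))) with ha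
  have habs : ∀ i g, |a i g| ≤ 8 * s := by
    intro i g
    have h1 : ‖(y i) (T (xc g.1))‖ ≤ 8 * s := by
      have h2 : ‖((y i).comp T) (xc g.1)‖ ≤ ‖(y i).comp T‖ * ‖xc g.1‖ := ContinuousLinearMap.le_opNorm _ _
      have h3 : ‖(y i).comp T‖ * ‖xc g.1‖ ≤ 8 * s * 1 :=
        mul_le_mul (hyD i).2 (hxc1 g.1) (norm_nonneg _) (by positivity)
      simpa using h2.trans h3
    simp only [ha]
    split_ifs
    · exact (RCLike.abs_im_le_norm _).trans h1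
    · exact (RCLike.abs_re_le_norm _).trans h1
  have hlog : 16 * ((8 * s) / (s / 8)) ^ 2 * Real.log (2 * (Fintype.card (Fin (2 ^ k) × Bool) : ℝ)) ≤ n := by
    have h1 : (8 * s) / (s / 8) = 64 := by field_simp; norm_num
    rw [h1]
    have h2 : (2 * (Fintype.card (Fin (2 ^ k) × Bool) : ℝ)) = 2 ^ (k + 2) := by
      rw [Fintype.card_prod, Fintype.card_fin, Fintype.card_bool]
      push_cast
      ring
    rw [h2, Real.log_pow]
    have h3 : Real.log 2 ≤ 1 := by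
      have := Real.log_two_lt_d9
      linarith
    have hnr : (n : ℝ) = 65536 * ((k : ℝ) + 2) := by rw [hn]; push_cast; ring
    rw [hnr]
    push_cast
    have h4 : ((k : ℝ) + 2) * Real.log 2 ≤ ((k : ℝ) + 2) * 1 :=
      mul_le_mul_of_nonneg_left h3 (by positivity)
    nlinarith
  obtain ⟨f, hf⟩ := sampling lam hl hsum a (8 * s) (s / 8) (by positivity) (by linarith) habs n hlog
  obtain ⟨j, hj⟩ := hW f
  refine ⟨j, ?_⟩
  rw [hj]
  -- distance between zz and av f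
  have hzz1 : ‖zz‖ ≤ 1 := by
    calc ‖zz‖ ≤ ∑ i, ‖((lam i : ℝ) : 𝕜) • y i‖ := norm_sum_le _ _
      _ ≤ ∑ i, lam i * 1 := by
          refine Finset.sum_le_sum fun i _ => ?_
          rw [norm_smul, RCLike.norm_ofReal, abs_of_nonneg (hl i)]
          exact mul_le_mul_of_nonneg_left (hyD i).1 (hl i)
      _ = 1 := by simp [hsum]
  have hav1 : ‖av f‖ ≤ 1 := by
    rw [hav f, norm_smul, RCLike.norm_ofReal, abs_of_nonneg (by positivity)]
    have h1 : ‖∑ l, y (f l)‖ ≤ n := by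
      calc ‖∑ l, y (f l)‖ ≤ ∑ l : Fin n, ‖y (f l)‖ := norm_sum_le _ _
        _ ≤ ∑ l : Fin n, (1 : ℝ) := Finset.sum_le_sum fun l _ => (hyD (f l)).1
        _ = n := by simp
    calc (n : ℝ)⁻¹ * ‖∑ l, y (f l)‖ ≤ (n : ℝ)⁻¹ * n := mul_le_mul_of_nonneg_left h1 (by positivity)
      _ = 1 := inv_mul_cancel₀ hnpos.ne'
  have hcentre : ∀ c : Fin (2 ^ k), ‖(zz - av f) (T (xc c))‖ ≤ s / 4 := by
    intro c
    have hre : |RCLike.re ((zz - av f) (T (xc c)))| ≤ s / 8 := by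
      have h1 := hf (c, false)
      have h2 : RCLike.re ((zz - av f) (T (xc c))) =
          - ((n : ℝ)⁻¹ * (∑ l, a (f l) (c, false) - n * ∑ i, lam i * a i (c, false))) := by
        simp only [ha, hzz, hav f, sub_apply, _root_.sum_apply, smul_apply, smul_eq_mul, map_sub,
          map_sum, RCLike.re_ofReal_mul]
        simp only [Bool.false_eq_true, if_false]
        rw [mul_sub, ← mul_assoc, inv_mul_cancel₀ hnpos.ne', one_mul]
        ring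
      rw [h2, abs_neg, abs_mul, abs_of_nonneg (by positivity : (0:ℝ) ≤ (n : ℝ)⁻¹)]
      calc (n : ℝ)⁻¹ * |∑ l, a (f l) (c, false) - n * ∑ i, lam i * a i (c, false)| ≤
          (n : ℝ)⁻¹ * (n * (s / 8)) := mul_le_mul_of_nonneg_left h1 (by positivity)
        _ = s / 8 := by rw [← mul_assoc, inv_mul_cancel₀ hnpos.ne', one_mul]
    have him : |RCLike.im ((zz - av f) (T (xc c)))| ≤ s / 8 := by
      have h1 := hf (c, true)
      have h2 : RCLike.im ((zz - av f) (T (xc c))) =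
          - ((n : ℝ)⁻¹ * (∑ l, a (f l) (c, true) - n * ∑ i, lam i * a i (c, true))) := by
        simp only [ha, hzz, hav f, sub_apply, _root_.sum_apply, smul_apply, smul_eq_mul, map_sub,
          map_sum, RCLike.im_ofReal_mul]
        simp only [if_true]
        rw [mul_sub, ← mul_assoc, inv_mul_cancel₀ hnpos.ne', one_mul]
        ring
      rw [h2, abs_neg, abs_mul, abs_of_nonneg (by positivity : (0:ℝ) ≤ (n : ℝ)⁻¹)]
      calc (n : ℝ)⁻¹ * |∑ l, a (f l) (c, true) - n * ∑ i, lam i * a i (c, true)| ≤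
          (n : ℝ)⁻¹ * (n * (s / 8)) := mul_le_mul_of_nonneg_left h1 (by positivity)
        _ = s / 8 := by rw [← mul_assoc, inv_mul_cancel₀ hnpos.ne', one_mul]
    have h3 : ‖(zz - av f) (T (xc c))‖ ≤ |RCLike.re ((zz - av f) (T (xc c)))| +
        |RCLike.im ((zz - av f) (T (xc c)))| := by
      have h4 := RCLike.re_add_im ((zz - av f) (T (xc c)))
      calc ‖(zz - av f) (T (xc c))‖ = ‖((RCLike.re ((zz - av f) (T (xc c))) : ℝ) : 𝕜) +
            ((RCLike.im ((zz - av f) (T (xc c))) : ℝ) : 𝕜) * RCLike.I‖ := by rw [h4]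
        _ ≤ ‖((RCLike.re ((zz - av f) (T (xc c))) : ℝ) : 𝕜)‖ +
            ‖((RCLike.im ((zz - av f) (T (xc c))) : ℝ) : 𝕜) * RCLike.I‖ := norm_add_le _ _
        _ ≤ |RCLike.re ((zz - av f) (T (xc c)))| + |RCLike.im ((zz - av f) (T (xc c)))| := by
            rw [norm_mul, RCLike.norm_ofReal, RCLike.norm_ofReal]
            have hI : ‖(RCLike.I : 𝕜)‖ ≤ 1 := by
              by_cases h0 : (RCLike.I : 𝕜) = 0
              · rw [h0, norm_zero]; norm_num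
              · exact (RCLike.norm_I_of_ne_zero h0).le
            have := mul_le_mul_of_nonneg_left hI (abs_nonneg (RCLike.im ((zz - av f) (T (xc c)))))
            linarith
    linarith
  have hmain : ‖(zz - av f).comp T‖ ≤ s / 2 := by
    refine norm_comp_le_of_unit T _ _ (by positivity) fun x hx => ?_
    obtain ⟨c, hc⟩ := hcov2 x hx
    have h1 : (zz - av f) (T x) = (zz - av f) (T (xc c)) + (zz - av f) (T x - T (xc c)) := by
      rw [← map_add]; congr 1; abel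
    have h2 : ‖(zz - av f) (T x - T (xc c))‖ ≤ 2 * (s / 8) := by
      have h3 : ‖zz - av f‖ ≤ 2 := by
        calc ‖zz - av f‖ ≤ ‖zz‖ + ‖av f‖ := norm_sub_le _ _
          _ ≤ 2 := by linarith
      calc ‖(zz - av f) (T x - T (xc c))‖ ≤ ‖zz - av f‖ * ‖T x - T (xc c)‖ :=
            ContinuousLinearMap.le_opNorm _ _
        _ ≤ 2 * (s / 8) := mul_le_mul h3 hc (norm_nonneg _) (by norm_num)
    rw [h1]
    calc ‖(zz - av f) (T (xc c)) + (zz - av f) (T x - T (xc c))‖ ≤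
        ‖(zz - av f) (T (xc c))‖ + ‖(zz - av f) (T x - T (xc c))‖ := norm_add_le _ _
      _ ≤ s / 2 := by linarith [hcentre c]
  have hsplit : z.comp T - (av f).comp T = (z - zz).comp T + (zz - av f).comp T := by
    ext v
    simp
  rw [hsplit]
  calc ‖(z - zz).comp T + (zz - av f).comp T‖ ≤ ‖(z - zz).comp T‖ + ‖(zz - av f).comp T‖ := norm_add_le _ _
    _ ≤ s := by linarith

theorem tele (T : X →L[𝕜] Y) (R : ℝ) (hR : 0 < R) (hT : ‖T‖ ≤ R) (k : ℕ → ℕ)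
    (cov : ∀ j, ∃ w : Fin (2 ^ (k j)) → Y, ∀ x : X, ‖x‖ ≤ 1 → ∃ c, ‖T x - w c‖ ≤ R / 4 ^ j / 128)
    (J : ℕ) :
    ∃ W : Fin (2 ^ (∑ j ∈ range J, 65536 * (k j + 7) ^ 2)) → (X →L[𝕜] 𝕜), ∀ y : Y →L[𝕜] 𝕜,
      ‖y‖ ≤ 1 → ∃ i, ‖y.comp T - W i‖ ≤ R / 4 ^ J := by
  classical
  induction J with
  | zero =>
    refine ⟨fun _ => 0, fun y hy => ⟨⟨0, by simp⟩, ?_⟩⟩
    rw [sub_zero, pow_zero, div_one]
    calc ‖y.comp T‖ ≤ ‖y‖ * ‖T‖ := ContinuousLinearMap.opNorm_comp_le _ _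
      _ ≤ 1 * R := mul_le_mul hy hT (norm_nonneg _) (by norm_num)
      _ = R := one_mul R
  | succ J ih =>
    obtain ⟨W, hW⟩ := ih
    obtain ⟨w, hw⟩ := cov J
    have h4 : (0 : ℝ) < 4 ^ J := by positivity
    set s : ℝ := R / 4 ^ J / 8 with hs
    have hspos : 0 < s := by positivity
    obtain ⟨V, hV⟩ := one_scale T (k J) s hspos w (fun x hx => by
      obtain ⟨c, hc⟩ := hw x hx
      exact ⟨c, hc.trans (le_of_eq (by rw [hs]; ring))⟩)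
    -- representatives
    have hrep : ∀ i, ∃ y0 : Y →L[𝕜] 𝕜, ‖y0‖ ≤ 1 ∧ ∀ y : Y →L[𝕜] 𝕜, ‖y‖ ≤ 1 →
        ‖y.comp T - W i‖ ≤ R / 4 ^ J → ‖y0.comp T - W i‖ ≤ R / 4 ^ J := by
      intro i
      by_cases h : ∃ y0 : Y →L[𝕜] 𝕜, ‖y0‖ ≤ 1 ∧ ‖y0.comp T - W i‖ ≤ R / 4 ^ J
      · obtain ⟨y0, h1, h2⟩ := h
        exact ⟨y0, h1, fun _ _ _ => h2⟩
      · exact ⟨0, by simp, fun y h1 h2 => absurd ⟨y, h1, h2⟩ h⟩
    choose y0 hy0 hy0' using hrep
    have hcard : Fintype.card (Fin (2 ^ (∑ j ∈ range J, 65536 * (k j + 7) ^ 2)) ×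
        Fin (2 ^ (65536 * (k J + 7) ^ 2))) ≤
        2 ^ (∑ j ∈ range (J + 1), 65536 * (k j + 7) ^ 2) := by
      rw [Fintype.card_prod, Fintype.card_fin, Fintype.card_fin, Finset.sum_range_succ, ← pow_add]
    obtain ⟨W', hW'⟩ := reindex _ hcard (fun p => (y0 p.1).comp T + (2 : 𝕜) • V p.2)
    refine ⟨W', fun y hy => ?_⟩
    obtain ⟨i, hi⟩ := hW y hy
    have hi0 := hy0' i y hy hi
    set h : Y →L[𝕜] 𝕜 := ((2 : 𝕜)⁻¹) • (y - y0 i) with hh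
    have hn2 : ‖((2 : 𝕜)⁻¹)‖ = 2⁻¹ := by
      rw [norm_inv, RCLike.norm_ofNat]
    have hnorm1 : ‖h‖ ≤ 1 := by
      rw [hh, norm_smul, hn2]
      have : ‖y - y0 i‖ ≤ 2 := by
        calc ‖y - y0 i‖ ≤ ‖y‖ + ‖y0 i‖ := norm_sub_le _ _
          _ ≤ 2 := by linarith [hy0 i]
      linarith
    have hcomp : h.comp T = ((2 : 𝕜)⁻¹) • (y.comp T - (y0 i).comp T) := by
      ext v; simp [hh]
    have hnorm2 : ‖h.comp T‖ ≤ 8 * s := by
      rw [hcomp, norm_smul, hn2]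
      have h1 : ‖y.comp T - (y0 i).comp T‖ ≤ 2 * (R / 4 ^ J) := by
        calc ‖y.comp T - (y0 i).comp T‖ = ‖(y.comp T - W i) - ((y0 i).comp T - W i)‖ := by
              congr 1; abel
          _ ≤ ‖y.comp T - W i‖ + ‖(y0 i).comp T - W i‖ := norm_sub_le _ _
          _ ≤ 2 * (R / 4 ^ J) := by linarith
      have h2 : 8 * s = R / 4 ^ J := by rw [hs]; ring
      rw [h2]
      linarith
    obtain ⟨l, hl⟩ := hV h hnorm1 hnorm2
    obtain ⟨j, hj⟩ := hW' (i, l)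
    refine ⟨j, ?_⟩
    rw [hj]
    have h2ne : (2 : 𝕜) ≠ 0 := two_ne_zero
    have e1 : y.comp T - ((y0 i).comp T + (2 : 𝕜) • V l) = (2 : 𝕜) • (h.comp T - V l) := by
      rw [hcomp, smul_sub, smul_smul, mul_inv_cancel₀ h2ne, one_smul]
      abel
    show ‖y.comp T - ((y0 i).comp T + (2 : 𝕜) • V l)‖ ≤ _
    rw [e1, norm_smul, RCLike.norm_ofNat]
    have h3 : R / 4 ^ (J + 1) = 2 * s := by rw [hs, pow_succ]; field_simp; norm_num
    rw [h3]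
    linarith

end

end Pool.Agent.Work.MP_c13439_an
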