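import Mathlib
import Pool.Agent.Work.MP_c13439_an.Defs
import Pool.Agent.Work.MP_c13439_an.Tele

set_option autoImplicit false

namespace Pool.Agent.Work.MP_c13439_an

open Finset

section ent

variable {𝕜 Z W : Type*} [RCLike 𝕜] [NormedAddCommGroup Z] [NormedSpace 𝕜 Z]
  [NormedAddCommGroup W] [NormedSpace 𝕜 W]

theorem ent_bddBelow (S : Z →L[𝕜] W) (n : ℕ) : BddBelow {ε : ℝ | 0 < ε ∧ ∃ w : Fin (2 ^ n) → W,
    S '' Metric.closedBall (0 : Z) 1 ⊆ ⋃ k, Metric.closedBall (w k) ε} :=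
  ⟨0, fun _ h => h.1.le⟩

theorem mem_iff (S : Z →L[𝕜] W) (n : ℕ) (w : Fin (2 ^ n) → W) (ε : ℝ) :
    (S '' Metric.closedBall (0 : Z) 1 ⊆ ⋃ k, Metric.closedBall (w k) ε) ↔
      ∀ x : Z, ‖x‖ ≤ 1 → ∃ c, ‖S x - w c‖ ≤ ε := by
  constructor
  · intro h x hx
    have h1 : S x ∈ ⋃ k, Metric.closedBall (w k) ε :=
      h ⟨x, by simpa [Metric.mem_closedBall, dist_zero_right] using hx, rfl⟩
    rw [Set.mem_iUnion] at h1
    obtain ⟨c, hc⟩ := h1
    exact ⟨c, by rwa [Metric.mem_closedBall, dist_eq_norm] at hc⟩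
  · rintro h _ ⟨x, hx, rfl⟩
    rw [Metric.mem_closedBall, dist_zero_right] at hx
    obtain ⟨c, hc⟩ := h x hx
    rw [Set.mem_iUnion]
    exact ⟨c, by rwa [Metric.mem_closedBall, dist_eq_norm]⟩

theorem ent_nonempty (S : Z →L[𝕜] W) (n : ℕ) : {ε : ℝ | 0 < ε ∧ ∃ w : Fin (2 ^ n) → W,
    S '' Metric.closedBall (0 : Z) 1 ⊆ ⋃ k, Metric.closedBall (w k) ε}.Nonempty := by
  refine ⟨‖S‖ + 1, by positivity, fun _ => 0, ?_⟩
  rw [mem_iff]
  intro x hx
  refine ⟨⟨0, by positivity⟩, ?_⟩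
  rw [sub_zero]
  have h1 := S.le_opNorm x
  have h2 : ‖S‖ * ‖x‖ ≤ ‖S‖ * 1 := mul_le_mul_of_nonneg_left hx (norm_nonneg _)
  linarith

theorem ent_nonneg (S : Z →L[𝕜] W) (n : ℕ) : 0 ≤ entropyNumber S n :=
  Real.sInf_nonneg fun _ h => h.1.le

theorem ent_le (S : Z →L[𝕜] W) (n : ℕ) (r : ℝ) (hr : 0 < r) (w : Fin (2 ^ n) → W)
    (h : ∀ x : Z, ‖x‖ ≤ 1 → ∃ c, ‖S x - w c‖ ≤ r) : entropyNumber S n ≤ r :=
  csInf_le (ent_bddBelow S n) ⟨hr, w, (mem_iff S n w r).2 h⟩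

theorem ent_lt (S : Z →L[𝕜] W) (n : ℕ) (r : ℝ) (hr : entropyNumber S n < r) :
    ∃ w : Fin (2 ^ n) → W, ∀ x : Z, ‖x‖ ≤ 1 → ∃ c, ‖S x - w c‖ ≤ r := by
  obtain ⟨ε, ⟨_, w, hw⟩, hlt⟩ := exists_lt_of_csInf_lt (ent_nonempty S n) hr
  refine ⟨w, fun x hx => ?_⟩
  obtain ⟨c, hc⟩ := (mem_iff S n w ε).1 hw x hx
  exact ⟨c, hc.trans hlt.le⟩

theorem ent_anti (S : Z →L[𝕜] W) {m n : ℕ} (hmn : m ≤ n) : entropyNumber S n ≤ entropyNumber S m := by
  refine le_of_forall_gt_imp_ge_of_dense fun r hr => ?_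
  obtain ⟨w, hw⟩ := ent_lt S m r hr
  have hr0 : 0 < r := lt_of_le_of_lt (ent_nonneg S m) hr
  have hcard : Fintype.card (Fin (2 ^ m)) ≤ 2 ^ n := by
    rw [Fintype.card_fin]; exact Nat.pow_le_pow_right (by norm_num) hmn
  obtain ⟨w', hw'⟩ := reindex (2 ^ n) hcard w
  refine ent_le S n r hr0 w' fun x hx => ?_
  obtain ⟨c, hc⟩ := hw x hx
  obtain ⟨j, hj⟩ := hw' c
  exact ⟨j, by rw [hj]; exact hc⟩

theorem norm_le_ent (S : Z →L[𝕜] W) : ‖S‖ ≤ entropyNumber S 0 := by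
  refine le_of_forall_gt_imp_ge_of_dense fun r hr => ?_
  have hr0 : 0 < r := lt_of_le_of_lt (ent_nonneg S 0) hr
  obtain ⟨w, hw⟩ := ent_lt S 0 r hr
  have h1 : ∀ x : Z, ‖x‖ ≤ 1 → ‖S x‖ ≤ r := by
    intro x hx
    obtain ⟨c, hc⟩ := hw x hx
    obtain ⟨d, hd⟩ := hw (-x) (by rwa [norm_neg])
    have hcd : c = d := by
      have h2 : ∀ a b : Fin (2 ^ 0), a = b := by decide
      exact h2 c d
    subst hcd
    have h3 : (2 : ℝ) * ‖S x‖ = ‖(S x - w c) - (S (-x) - w c)‖ := by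
      have : (S x - w c) - (S (-x) - w c) = (2 : 𝕜) • S x := by
        rw [map_neg, two_smul]; abel
      rw [this, norm_smul, RCLike.norm_ofNat]
    have h4 : ‖(S x - w c) - (S (-x) - w c)‖ ≤ ‖S x - w c‖ + ‖S (-x) - w c‖ := norm_sub_le _ _
    linarith
  refine ContinuousLinearMap.opNorm_le_bound S hr0.le fun x => ?_
  rcases eq_or_ne x 0 with h0 | h0
  · simp [h0]
  · have hx : ‖x‖ ≠ 0 := norm_ne_zero_iff.2 h0
    have h2 := h1 ((((‖x‖ : ℝ) : 𝕜)⁻¹) • x) (by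
      rw [norm_smul, norm_inv, RCLike.norm_ofReal, abs_of_nonneg (norm_nonneg _), inv_mul_cancel₀ hx])
    rw [map_smul, norm_smul, norm_inv, RCLike.norm_ofReal, abs_of_nonneg (norm_nonneg _)] at h2
    have h3 : ‖S x‖ = ‖x‖ * (‖x‖⁻¹ * ‖S x‖) := by field_simp
    rw [h3, mul_comm]
    exact mul_le_mul_of_nonneg_right h2 (norm_nonneg _)

end ent

section geo

theorem q_lt (p : ℝ) (hp : 0 < p) : ((1 : ℝ) / 4) ^ p < 1 :=
  Real.rpow_lt_one (by norm_num) (by norm_num) hp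

theorem geo0 (p : ℝ) (hp : 0 < p) (J : ℕ) : ∀ R : ℝ, 0 < R →
    ∑ j ∈ range J, (R / 4 ^ j) ^ p ≤ R ^ p / (1 - ((1 : ℝ) / 4) ^ p) := by
  have hq := q_lt p hp
  have hq' : 0 < 1 - ((1 : ℝ) / 4) ^ p := by linarith
  induction J with
  | zero =>
    intro R hR
    simp only [range_zero, sum_empty]
    positivity
  | succ J ih =>
    intro R hR
    rw [Finset.sum_range_succ']
    have h1 : ∑ j ∈ range J, (R / 4 ^ (j + 1)) ^ p = ∑ j ∈ range J, (R / 4 / 4 ^ j) ^ p := by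
      refine Finset.sum_congr rfl fun j _ => ?_
      congr 1
      rw [pow_succ]; field_simp
    rw [h1]
    have h2 := ih (R / 4) (by positivity)
    have h3 : (R / 4) ^ p = R ^ p * ((1 : ℝ) / 4) ^ p := by
      rw [← Real.mul_rpow hR.le (by norm_num)]; congr 1; ring
    rw [h3] at h2
    simp only [pow_zero, div_one]
    have h4 : R ^ p / (1 - ((1 : ℝ) / 4) ^ p) =
        R ^ p * ((1 : ℝ) / 4) ^ p / (1 - ((1 : ℝ) / 4) ^ p) + R ^ p := by
      field_simp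
      ring
    rw [h4]
    linarith

theorem geo (p : ℝ) (hp : 0 < p) (t : ℝ) (ht : 0 ≤ t) (J : ℕ) : ∀ R : ℝ, 0 < R →
    ∑ j ∈ range J, (if R / 4 ^ j ≤ t then (R / 4 ^ j) ^ p else 0) ≤
      t ^ p / (1 - ((1 : ℝ) / 4) ^ p) := by
  have hq := q_lt p hp
  have hq' : 0 < 1 - ((1 : ℝ) / 4) ^ p := by linarith
  induction J with
  | zero =>
    intro R hR
    simp only [range_zero, sum_empty]
    positivity
  | succ J ih =>
    intro R hR
    by_cases hRt : R ≤ t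
    · have h1 : ∑ j ∈ range (J + 1), (if R / 4 ^ j ≤ t then (R / 4 ^ j) ^ p else 0) ≤
          ∑ j ∈ range (J + 1), (R / 4 ^ j) ^ p := by
        refine Finset.sum_le_sum fun j _ => ?_
        split_ifs
        · exact le_rfl
        · positivity
      refine (h1.trans (geo0 p hp (J + 1) R hR)).trans ?_
      exact div_le_div_of_nonneg_right (Real.rpow_le_rpow hR.le hRt hp.le) hq'.le
    · rw [Finset.sum_range_succ']
      have h1 : ∑ j ∈ range J, (if R / 4 ^ (j + 1) ≤ t then (R / 4 ^ (j + 1)) ^ p else 0) =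
          ∑ j ∈ range J, (if R / 4 / 4 ^ j ≤ t then (R / 4 / 4 ^ j) ^ p else 0) := by
        refine Finset.sum_congr rfl fun j _ => ?_
        have : R / 4 ^ (j + 1) = R / 4 / 4 ^ j := by rw [pow_succ]; field_simp
        rw [this]
      rw [h1]
      have h2 := ih (R / 4) (by positivity)
      simp only [pow_zero, div_one, if_neg hRt, add_zero]
      exact h2

end geo

section main

variable {𝕜 X Y : Type*} [RCLike 𝕜] [NormedAddCommGroup X] [NormedSpace 𝕜 X]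
  [NormedAddCommGroup Y] [NormedSpace 𝕜 Y]

theorem adj_apply (T : X →L[𝕜] Y) (y : Y →L[𝕜] 𝕜) : adjointMap T y = y.comp T := rfl

/-- The constant of the duality inequality. -/
noncomputable def cst (p : ℝ) : ℝ := 65536 * ((7 + 128 ^ p) / (1 - ((1 : ℝ) / 4) ^ p)) ^ 2

theorem main_ineq (T : X →L[𝕜] Y) (p : ℝ) (hp : 0 < p)
    (h : Summable fun n => (entropyNumber T n) ^ p) :
    (Summable fun n => (entropyNumber (adjointMap T) n) ^ (2 * p)) ∧
    ∑' n, (entropyNumber (adjointMap T) n) ^ (2 * p) ≤ cst p * (∑' n, (entropyNumber T n) ^ p) ^ 2 := by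
  classical
  set a : ℕ → ℝ := fun n => entropyNumber T n with ha
  set b : ℕ → ℝ := fun n => entropyNumber (adjointMap T) n with hb
  have ha0 : ∀ n, 0 ≤ a n := fun n => ent_nonneg T n
  have hb0 : ∀ n, 0 ≤ b n := fun n => ent_nonneg _ n
  have hap : ∀ n, 0 ≤ (a n) ^ p := fun n => Real.rpow_nonneg (ha0 n) p
  set S : ℝ := ∑' n, (a n) ^ p with hS
  have hS0 : 0 ≤ S := tsum_nonneg hap
  have hq := q_lt p hp
  have hq' : 0 < 1 - ((1 : ℝ) / 4) ^ p := by linarith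
  have hT : ‖T‖ ≤ a 0 := norm_le_ent T
  rcases eq_or_lt_of_le (ha0 0) with hR | hR
  · -- T = 0
    have hb' : ∀ n, b n = 0 := by
      intro n
      refine le_antisymm ?_ (hb0 n)
      refine le_of_forall_gt_imp_ge_of_dense fun r hr => ?_
      refine ent_le _ n r hr (fun _ => 0) fun y hy => ⟨⟨0, by positivity⟩, ?_⟩
      rw [sub_zero, adj_apply]
      have h1 : ‖y.comp T‖ ≤ ‖y‖ * ‖T‖ := ContinuousLinearMap.opNorm_comp_le _ _
      have h2 : ‖T‖ ≤ 0 := by rw [hR]; exact hT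
      have h3 : ‖T‖ = 0 := le_antisymm h2 (norm_nonneg _)
      rw [h3, mul_zero] at h1
      linarith
    have hz : (fun n => (b n) ^ (2 * p)) = fun _ => (0 : ℝ) := by
      funext n
      rw [hb' n, Real.zero_rpow (by positivity)]
    rw [hz]
    refine ⟨summable_zero, ?_⟩
    rw [tsum_zero]
    unfold cst
    positivity
  -- the main case
  set R : ℝ := a 0 with hRdef
  have htend : Filter.Tendsto (fun n => (a n) ^ p) Filter.atTop (nhds 0) := h.tendsto_atTop_zero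
  have hsmall : ∀ r : ℝ, 0 < r → ∃ k, a k < r := by
    intro r hr
    have h1 : ∀ᶠ n in Filter.atTop, (a n) ^ p < r ^ p :=
      htend.eventually (gt_mem_nhds (Real.rpow_pos_of_pos hr p))
    obtain ⟨k, hk⟩ := h1.exists
    exact ⟨k, (Real.rpow_lt_rpow_iff (ha0 k) hr.le hp).1 hk⟩
  have hρpos : ∀ j : ℕ, 0 < R / 4 ^ j := fun j => by positivity
  have hex : ∀ j : ℕ, ∃ k, a k < R / 4 ^ j / 128 := fun j => hsmall _ (by have := hρpos j; positivity)
  set k : ℕ → ℕ := fun j => Nat.find (hex j) with hk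
  have hkspec : ∀ j, a (k j) < R / 4 ^ j / 128 := fun j => Nat.find_spec (hex j)
  have hkmin : ∀ j n, n < k j → R / 4 ^ j ≤ 128 * a n := by
    intro j n hn
    have := Nat.find_min (hex j) hn
    push Not at this
    linarith
  have cov : ∀ j, ∃ w : Fin (2 ^ (k j)) → Y, ∀ x : X, ‖x‖ ≤ 1 → ∃ c, ‖T x - w c‖ ≤ R / 4 ^ j / 128 :=
    fun j => ent_lt T (k j) _ (hkspec j)
  obtain ⟨N, hN⟩ : ∃ N : ℕ → ℕ, ∀ J, N J = ∑ j ∈ range J, 65536 * (k j + 7) ^ 2 := ⟨_, fun J => rfl⟩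
  have hbN : ∀ J, b (N J) ≤ R / 4 ^ J := by
    intro J
    have h1 := tele T R hR hT k cov J
    rw [← hN J] at h1
    obtain ⟨W, hW⟩ := h1
    exact ent_le _ (N J) _ (hρpos J) W fun y hy => hW y hy
  have hNJ : ∀ J, J ≤ N J := by
    intro J
    rw [hN]
    calc J = ∑ j ∈ range J, 1 := by simp
      _ ≤ ∑ j ∈ range J, 65536 * (k j + 7) ^ 2 := Finset.sum_le_sum fun j _ => by
          have : 1 ≤ (k j + 7) ^ 2 := Nat.one_le_pow _ _ (by omega)
          omega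
  set x : ℕ → ℝ := fun j => ((k j : ℝ) + 7) * (R / 4 ^ j) ^ p with hx
  have hx0 : ∀ j, 0 ≤ x j := fun j => by
    have := Real.rpow_nonneg (hρpos j).le p
    positivity
  have hpart : ∀ J, ∑ n ∈ range (N J), (b n) ^ (2 * p) ≤ ∑ j ∈ range J, 65536 * (x j) ^ 2 := by
    intro J
    induction J with
    | zero =>
      rw [hN]; simp
    | succ J ih =>
      have h1 : N (J + 1) = N J + 65536 * (k J + 7) ^ 2 := by
        rw [hN, hN, Finset.sum_range_succ]
      rw [h1, Finset.sum_range_add, Finset.sum_range_succ]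
      refine add_le_add ih ?_
      have h2 : ∀ n ∈ range (65536 * (k J + 7) ^ 2), (b (N J + n)) ^ (2 * p) ≤ ((R / 4 ^ J) ^ p) ^ 2 := by
        intro n _
        have h3 : b (N J + n) ≤ R / 4 ^ J := (ent_anti _ (Nat.le_add_right _ _)).trans (hbN J)
        have h4 : (b (N J + n)) ^ (2 * p) ≤ (R / 4 ^ J) ^ (2 * p) :=
          Real.rpow_le_rpow (hb0 _) h3 (by positivity)
        have h5 : (R / 4 ^ J) ^ (2 * p) = ((R / 4 ^ J) ^ p) ^ 2 := by
          rw [mul_comm, Real.rpow_mul (hρpos J).le]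
          exact_mod_cast Real.rpow_natCast _ 2
        rw [← h5]; exact h4
      refine (Finset.sum_le_sum h2).trans (le_of_eq ?_)
      rw [Finset.sum_const, card_range, nsmul_eq_mul]
      push_cast
      simp only [hx]
      ring
  have hgeo1 : ∑ j ∈ range 0, x j ≤ 0 := by simp
  have hsumx : ∀ J, ∑ j ∈ range J, x j ≤ (7 + 128 ^ p) / (1 - ((1 : ℝ) / 4) ^ p) * S := by
    intro J
    have e1 : ∑ j ∈ range J, x j = ∑ j ∈ range J, (k j : ℝ) * (R / 4 ^ j) ^ p +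
        7 * ∑ j ∈ range J, (R / 4 ^ j) ^ p := by
      rw [Finset.mul_sum, ← Finset.sum_add_distrib]
      refine Finset.sum_congr rfl fun j _ => ?_
      simp only [hx]; ring
    have h1 := geo0 p hp J R hR
    have hRS : R ^ p ≤ S := h.le_tsum 0 (fun n _ => hap n)
    set K : ℕ := ∑ j ∈ range J, k j with hK
    have h2 : ∑ j ∈ range J, (k j : ℝ) * (R / 4 ^ j) ^ p ≤
        ∑ n ∈ range K, ∑ j ∈ range J, (if R / 4 ^ j ≤ 128 * a n then (R / 4 ^ j) ^ p else 0) := by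
      rw [Finset.sum_comm]
      refine Finset.sum_le_sum fun j hj => ?_
      have hkK : k j ≤ K := Finset.single_le_sum (f := k) (fun _ _ => Nat.zero_le _) hj
      have h3 : (k j : ℝ) * (R / 4 ^ j) ^ p = ∑ n ∈ range (k j), (R / 4 ^ j) ^ p := by
        rw [Finset.sum_const, card_range, nsmul_eq_mul]
      rw [h3]
      have h4 : ∑ n ∈ range (k j), (R / 4 ^ j) ^ p ≤
          ∑ n ∈ range (k j), (if R / 4 ^ j ≤ 128 * a n then (R / 4 ^ j) ^ p else 0) := by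
        refine Finset.sum_le_sum fun n hn => ?_
        rw [if_pos (hkmin j n (mem_range.1 hn))]
      refine h4.trans ?_
      refine Finset.sum_le_sum_of_subset_of_nonneg (fun n hn => ?_) fun n _ _ => ?_
      · exact mem_range.2 (lt_of_lt_of_le (mem_range.1 hn) hkK)
      · split_ifs
        · exact Real.rpow_nonneg (hρpos j).le p
        · exact le_rfl
    have h5 : ∑ n ∈ range K, ∑ j ∈ range J, (if R / 4 ^ j ≤ 128 * a n then (R / 4 ^ j) ^ p else 0) ≤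
        ∑ n ∈ range K, (128 : ℝ) ^ p / (1 - ((1 : ℝ) / 4) ^ p) * (a n) ^ p := by
      refine Finset.sum_le_sum fun n _ => ?_
      have h6 := geo p hp (128 * a n) (mul_nonneg (by norm_num) (ha0 n)) J R hR
      refine h6.trans (le_of_eq ?_)
      rw [Real.mul_rpow (by norm_num) (ha0 n)]
      ring
    have h7 : ∑ n ∈ range K, (128 : ℝ) ^ p / (1 - ((1 : ℝ) / 4) ^ p) * (a n) ^ p ≤
        (128 : ℝ) ^ p / (1 - ((1 : ℝ) / 4) ^ p) * S := by
      rw [← Finset.mul_sum]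
      refine mul_le_mul_of_nonneg_left ?_ (by positivity)
      exact h.sum_le_tsum _ (fun n _ => hap n)
    have h8 : R ^ p / (1 - ((1 : ℝ) / 4) ^ p) ≤ S / (1 - ((1 : ℝ) / 4) ^ p) :=
      div_le_div_of_nonneg_right hRS hq'.le
    have h9 : (7 + 128 ^ p) / (1 - ((1 : ℝ) / 4) ^ p) * S =
        (128 : ℝ) ^ p / (1 - ((1 : ℝ) / 4) ^ p) * S + 7 * (S / (1 - ((1 : ℝ) / 4) ^ p)) := by ring
    rw [e1, h9]
    linarith [h2.trans (h5.trans h7)]
  have hsq : ∀ J, ∑ j ∈ range J, 65536 * (x j) ^ 2 ≤ cst p * S ^ 2 := by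
    intro J
    have hX0 : 0 ≤ ∑ j ∈ range J, x j := Finset.sum_nonneg fun j _ => hx0 j
    have h1 : ∑ j ∈ range J, (x j) ^ 2 ≤ (∑ j ∈ range J, x j) ^ 2 := by
      rw [pow_two (∑ j ∈ range J, x j), Finset.sum_mul]
      refine Finset.sum_le_sum fun j hj => ?_
      rw [pow_two]
      exact mul_le_mul_of_nonneg_left (Finset.single_le_sum (f := x) (fun i _ => hx0 i) hj) (hx0 j)
    have h2 : (∑ j ∈ range J, x j) ^ 2 ≤ ((7 + 128 ^ p) / (1 - ((1 : ℝ) / 4) ^ p) * S) ^ 2 :=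
      pow_le_pow_left₀ hX0 (hsumx J) 2
    rw [← Finset.mul_sum]
    unfold cst
    nlinarith [h1.trans h2]
  have hbound : ∀ n, ∑ i ∈ range n, (b i) ^ (2 * p) ≤ cst p * S ^ 2 := by
    intro n
    refine le_trans ?_ ((hpart n).trans (hsq n))
    refine Finset.sum_le_sum_of_subset_of_nonneg (fun i hi => ?_) fun i _ _ => Real.rpow_nonneg (hb0 i) _
    exact mem_range.2 (lt_of_lt_of_le (mem_range.1 hi) (hNJ n))
  have hsummable : Summable fun n => (b n) ^ (2 * p) :=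
    summable_of_sum_range_le (fun n => Real.rpow_nonneg (hb0 n) _) hbound
  exact ⟨hsummable, hsummable.tsum_le_of_sum_range_le hbound⟩

end main

end Pool.Agent.Work.MP_c13439_an
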