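import Mathlib
import Pool.Agent.Work.MP_c13439_an.Main

set_option autoImplicit false

namespace Pool.Agent.Work.MP_c13439_an

section

variable {𝕜 X Y : Type*} [RCLike 𝕜] [NormedAddCommGroup X] [NormedSpace 𝕜 X]
  [NormedAddCommGroup Y] [NormedSpace 𝕜 Y]

theorem norm_sub_le_two {E : Type*} [NormedAddCommGroup E] {a b w : E} {r : ℝ} (ha : ‖a - w‖ ≤ r)
    (hb : ‖b - w‖ ≤ r) : ‖a - b‖ ≤ 2 * r := by
  calc ‖a - b‖ = ‖(a - w) - (b - w)‖ := by congr 1; abel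
    _ ≤ ‖a - w‖ + ‖b - w‖ := norm_sub_le _ _
    _ ≤ 2 * r := by linarith

/-- The entropy numbers of `T` are at most twice those of `T**`. -/
theorem bidual_le (T : X →L[𝕜] Y) (n : ℕ) :
    entropyNumber T n ≤ 2 * entropyNumber (adjointMap (adjointMap T)) n := by
  classical
  have key : ∀ r : ℝ, entropyNumber (adjointMap (adjointMap T)) n < r → entropyNumber T n ≤ 2 * r := by
    intro r hr
    have hr0 : 0 < r := lt_of_le_of_lt (ent_nonneg _ n) hr
    obtain ⟨w, hw⟩ := ent_lt _ n r hr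
    have hj : ∀ x : X, (adjointMap (adjointMap T)) (NormedSpace.inclusionInDoubleDual 𝕜 X x) =
        NormedSpace.inclusionInDoubleDual 𝕜 Y (T x) := by
      intro x
      ext f
      rfl
    have hnorm : ∀ y : Y, ‖NormedSpace.inclusionInDoubleDual 𝕜 Y y‖ = ‖y‖ := fun y =>
      (NormedSpace.inclusionInDoubleDualLi 𝕜 (E := Y)).norm_map y
    have hnormX : ∀ y : X, ‖NormedSpace.inclusionInDoubleDual 𝕜 X y‖ = ‖y‖ := fun y =>
      (NormedSpace.inclusionInDoubleDualLi 𝕜 (E := X)).norm_map y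
    have hcov : ∀ x : X, ‖x‖ ≤ 1 → ∃ c, ‖NormedSpace.inclusionInDoubleDual 𝕜 Y (T x) - w c‖ ≤ r := by
      intro x hx
      obtain ⟨c, hc⟩ := hw (NormedSpace.inclusionInDoubleDual 𝕜 X x) (by rw [hnormX]; exact hx)
      rw [hj] at hc
      exact ⟨c, hc⟩
    have hrep : ∀ c : Fin (2 ^ n), ∃ y0 : Y, ∀ x : X, ‖x‖ ≤ 1 →
        ‖NormedSpace.inclusionInDoubleDual 𝕜 Y (T x) - w c‖ ≤ r → ‖T x - y0‖ ≤ 2 * r := by
      intro c
      by_cases h : ∃ x : X, ‖x‖ ≤ 1 ∧ ‖NormedSpace.inclusionInDoubleDual 𝕜 Y (T x) - w c‖ ≤ r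
      · obtain ⟨x0, _, h0⟩ := h
        refine ⟨T x0, fun x _ hx => ?_⟩
        rw [← hnorm (T x - T x0), map_sub]
        exact norm_sub_le_two (E := (Y →L[𝕜] 𝕜) →L[𝕜] 𝕜) (w := w c) hx h0
      · exact ⟨0, fun x hx hxc => absurd ⟨x, hx, hxc⟩ h⟩
    choose y0 hy0 using hrep
    refine ent_le T n (2 * r) (by positivity) y0 fun x hx => ?_
    obtain ⟨c, hc⟩ := hcov x hx
    exact ⟨c, hy0 c x hx hc⟩
  have h2 : ∀ r : ℝ, entropyNumber (adjointMap (adjointMap T)) n < r → entropyNumber T n / 2 ≤ r := by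
    intro r hr
    have := key r hr
    linarith
  have h3 := le_of_forall_gt_imp_ge_of_dense h2
  linarith

end

end Pool.Agent.Work.MP_c13439_an
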