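import Mathlib

set_option autoImplicit false

namespace Pool.Agent.Work.MP_c13439_an.Summation

open Finset

/-- The weights `(log (n + 2)) ^ (-(p + 1))`. -/
noncomputable def wt (p : ℝ) (n : ℕ) : ℝ := 1 / (Real.log ((n : ℝ) + 2)) ^ (p + 1)

theorem log_pos' (n : ℕ) : 0 < Real.log ((n : ℝ) + 2) :=
  Real.log_pos (by have : (0 : ℝ) ≤ n := n.cast_nonneg; linarith)

theorem wt_pos (p : ℝ) (n : ℕ) : 0 < wt p n := by
  unfold wt
  have := Real.rpow_pos_of_pos (log_pos' n) (p + 1)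
  positivity

theorem wt_anti (p : ℝ) (hp : 0 < p) {m n : ℕ} (h : m ≤ n) : wt p n ≤ wt p m := by
  unfold wt
  have h1 : (m : ℝ) ≤ n := by exact_mod_cast h
  have h0 : (0 : ℝ) ≤ m := m.cast_nonneg
  have h2 : Real.log ((m : ℝ) + 2) ≤ Real.log ((n : ℝ) + 2) := Real.log_le_log (by linarith) (by linarith)
  exact one_div_le_one_div_of_le (Real.rpow_pos_of_pos (log_pos' m) _)
    (Real.rpow_le_rpow (log_pos' m).le h2 (by linarith))

/-- Powers of the logarithm are dominated by powers. -/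
theorem log_rpow_le (A r : ℝ) (hA : 0 < A) (hr : 0 < r) (n : ℕ) :
    (Real.log ((n : ℝ) + 2)) ^ A ≤ (2 ^ r * (A / r) ^ A) * ((n : ℝ) + 1) ^ r := by
  have hn : (0 : ℝ) ≤ n := n.cast_nonneg
  have hε : 0 < r / A := by positivity
  have h1 : Real.log ((n : ℝ) + 2) ≤ ((n : ℝ) + 2) ^ (r / A) / (r / A) :=
    Real.log_le_rpow_div (by linarith) hε
  have h2 : (Real.log ((n : ℝ) + 2)) ^ A ≤ (((n : ℝ) + 2) ^ (r / A) / (r / A)) ^ A :=
    Real.rpow_le_rpow (log_pos' n).le h1 hA.le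
  refine h2.trans ?_
  rw [Real.div_rpow (Real.rpow_nonneg (by linarith) _) hε.le, ← Real.rpow_mul (by linarith),
    div_mul_cancel₀ r hA.ne']
  have h3 : ((n : ℝ) + 2) ^ r ≤ 2 ^ r * ((n : ℝ) + 1) ^ r := by
    rw [← Real.mul_rpow (by norm_num) (by linarith)]
    exact Real.rpow_le_rpow (by linarith) (by linarith) hr.le
  have h4 : ((A / r) ^ A) = 1 / (r / A) ^ A := by
    rw [← inv_div r A, Real.inv_rpow hε.le, one_div]
  rw [h4]
  have h5 : 0 < (r / A) ^ A := Real.rpow_pos_of_pos hε _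
  rw [div_le_iff₀ h5]
  have h6 : 2 ^ r * (1 / (r / A) ^ A) * ((n : ℝ) + 1) ^ r * (r / A) ^ A =
      2 ^ r * ((n : ℝ) + 1) ^ r := by
    field_simp
  rw [h6]
  exact h3

/-- Summation of the weights. -/
theorem sum_wt (p : ℝ) (hp : 0 < p) : ∃ C : ℝ, 0 < C ∧ ∀ M : ℕ, 1 ≤ M →
    ∑ n ∈ range M, wt p n ≤ C * (M * wt p M) := by
  set K : ℝ := 2 ^ (1 / 2 : ℝ) * ((p + 1) / (1 / 2)) ^ (p + 1) with hK
  have hK0 : 0 < K := by
    have : 0 < (p + 1) / (1 / 2) := by positivity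
    have := Real.rpow_pos_of_pos this (p + 1)
    positivity
  have hw0 := wt_pos p 0
  refine ⟨2 ^ (p + 1) + 3 * K * wt p 0, by positivity, ?_⟩
  intro M hM
  have hM' : (1 : ℝ) ≤ M := by exact_mod_cast hM
  have h1 : ∀ n ∈ range M, wt p n ≤ 2 ^ (p + 1) * wt p M +
      (if n < Nat.sqrt (M + 2) then wt p 0 else 0) := by
    intro n _
    by_cases h : n < Nat.sqrt (M + 2)
    · rw [if_pos h]
      have h2 := wt_anti p hp (Nat.zero_le n)
      have h3 := wt_pos p M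
      have : 0 < (2 : ℝ) ^ (p + 1) * wt p M := by positivity
      linarith
    · rw [if_neg h, add_zero]
      have h2 : M + 2 ≤ (n + 2) * (n + 2) := by
        have h3 : M + 2 < (Nat.sqrt (M + 2) + 1) * (Nat.sqrt (M + 2) + 1) := Nat.lt_succ_sqrt _
        have h4 : Nat.sqrt (M + 2) + 1 ≤ n + 2 := by omega
        exact (h3.le).trans (Nat.mul_le_mul h4 h4)
      have h2' : (M : ℝ) + 2 ≤ ((n : ℝ) + 2) ^ 2 := by
        rw [pow_two]; exact_mod_cast h2
      have h3 : Real.log ((M : ℝ) + 2) ≤ 2 * Real.log ((n : ℝ) + 2) := by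
        have := Real.log_le_log (by linarith) h2'
        rw [Real.log_pow] at this
        push_cast at this
        exact this
      unfold wt
      have hlM := log_pos' M
      have hln := log_pos' n
      rw [mul_one_div, div_le_div_iff₀ (Real.rpow_pos_of_pos hln _) (Real.rpow_pos_of_pos hlM _), one_mul,
        ← Real.mul_rpow (by norm_num) hln.le]
      exact Real.rpow_le_rpow hlM.le h3 (by linarith)
  refine (Finset.sum_le_sum h1).trans ?_
  rw [Finset.sum_add_distrib, Finset.sum_const, card_range, nsmul_eq_mul]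
  have h2 : ∑ n ∈ range M, (if n < Nat.sqrt (M + 2) then wt p 0 else 0) ≤ (Nat.sqrt (M + 2) : ℝ) * wt p 0 := by
    rw [← Finset.sum_filter]
    rw [Finset.sum_const, nsmul_eq_mul]
    refine mul_le_mul_of_nonneg_right ?_ hw0.le
    have : (filter (fun n => n < Nat.sqrt (M + 2)) (range M)).card ≤ (range (Nat.sqrt (M + 2))).card := by
      refine Finset.card_le_card fun n hn => ?_
      rw [mem_filter] at hn
      exact mem_range.2 hn.2
    rw [card_range] at this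
    exact_mod_cast this
  have h3 : (Nat.sqrt (M + 2) : ℝ) ≤ ((M : ℝ) + 2) ^ (1 / 2 : ℝ) := by
    rw [← Real.sqrt_eq_rpow]
    refine Real.le_sqrt_of_sq_le ?_
    have := Nat.sqrt_le' (M + 2)
    exact_mod_cast this
  have h4 := log_rpow_le (p + 1) (1 / 2) (by linarith) (by norm_num) M
  rw [← hK] at h4
  have h5 : (Nat.sqrt (M + 2) : ℝ) ≤ 3 * K * (M * wt p M) := by
    unfold wt
    have hl : 0 < (Real.log ((M : ℝ) + 2)) ^ (p + 1) := Real.rpow_pos_of_pos (log_pos' M) _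
    have e1 : 3 * K * ((M : ℝ) * (1 / Real.log ((M : ℝ) + 2) ^ (p + 1))) =
        3 * K * M / Real.log ((M : ℝ) + 2) ^ (p + 1) := by ring
    rw [e1, le_div_iff₀ hl]
    have h6 : ((M : ℝ) + 1) ^ (1 / 2 : ℝ) ≤ ((M : ℝ) + 2) ^ (1 / 2 : ℝ) :=
      Real.rpow_le_rpow (by linarith) (by linarith) (by norm_num)
    have h7 : ((M : ℝ) + 2) ^ (1 / 2 : ℝ) * ((M : ℝ) + 2) ^ (1 / 2 : ℝ) = (M : ℝ) + 2 := by
      rw [← Real.rpow_add (by linarith)]; norm_num
    have h8 : (0 : ℝ) < ((M : ℝ) + 2) ^ (1 / 2 : ℝ) := Real.rpow_pos_of_pos (by linarith) _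
    calc (Nat.sqrt (M + 2) : ℝ) * Real.log ((M : ℝ) + 2) ^ (p + 1) ≤
        ((M : ℝ) + 2) ^ (1 / 2 : ℝ) * (K * ((M : ℝ) + 1) ^ (1 / 2 : ℝ)) :=
          mul_le_mul h3 h4 hl.le h8.le
      _ ≤ ((M : ℝ) + 2) ^ (1 / 2 : ℝ) * (K * ((M : ℝ) + 2) ^ (1 / 2 : ℝ)) := by gcongr
      _ = K * (((M : ℝ) + 2) ^ (1 / 2 : ℝ) * ((M : ℝ) + 2) ^ (1 / 2 : ℝ)) := by ring
      _ = K * ((M : ℝ) + 2) := by rw [h7]
      _ ≤ 3 * K * M := by nlinarith
  have h6 : (Nat.sqrt (M + 2) : ℝ) * wt p 0 ≤ 3 * K * (M * wt p M) * wt p 0 :=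
    mul_le_mul_of_nonneg_right h5 hw0.le
  nlinarith [h2, h6]

theorem q_lt (p : ℝ) (hp : 0 < p) : ((1 : ℝ) / 4) ^ p < 1 :=
  Real.rpow_lt_one (by norm_num) (by norm_num) hp

theorem geo0 (p : ℝ) (hp : 0 < p) (J : ℕ) : ∀ s : ℕ → ℝ, (∀ j, 0 < s j) → (∀ j, s (j + 1) ≤ s j / 4) →
    ∑ j ∈ range J, (s j) ^ p ≤ (s 0) ^ p / (1 - ((1 : ℝ) / 4) ^ p) := by
  have hq := q_lt p hp
  have hq' : 0 < 1 - ((1 : ℝ) / 4) ^ p := by linarith
  induction J with
  | zero =>
    intro s hs _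
    simp only [range_zero, sum_empty]
    have := Real.rpow_pos_of_pos (hs 0) p
    positivity
  | succ J ih =>
    intro s hs hs1
    rw [Finset.sum_range_succ']
    have h2 := ih (fun j => s (j + 1)) (fun j => hs (j + 1)) (fun j => hs1 (j + 1))
    have h3 : (s (0 + 1)) ^ p ≤ (s 0) ^ p * ((1 : ℝ) / 4) ^ p := by
      rw [← Real.mul_rpow (hs 0).le (by norm_num)]
      refine Real.rpow_le_rpow (hs _).le ?_ hp.le
      have := hs1 0
      linarith
    have h3' : (s (0 + 1)) ^ p / (1 - ((1 : ℝ) / 4) ^ p) ≤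
        (s 0) ^ p * ((1 : ℝ) / 4) ^ p / (1 - ((1 : ℝ) / 4) ^ p) := div_le_div_of_nonneg_right h3 hq'.le
    have h4 : (s 0) ^ p / (1 - ((1 : ℝ) / 4) ^ p) =
        (s 0) ^ p * ((1 : ℝ) / 4) ^ p / (1 - ((1 : ℝ) / 4) ^ p) + (s 0) ^ p := by
      field_simp
      ring
    rw [h4]
    have h5 := h2.trans h3'
    linarith

theorem geo (p : ℝ) (hp : 0 < p) (t : ℝ) (ht : 0 ≤ t) (J : ℕ) : ∀ s : ℕ → ℝ, (∀ j, 0 < s j) →
    (∀ j, s (j + 1) ≤ s j / 4) →
    ∑ j ∈ range J, (if s j ≤ t then (s j) ^ p else 0) ≤ t ^ p / (1 - ((1 : ℝ) / 4) ^ p) := by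
  have hq := q_lt p hp
  have hq' : 0 < 1 - ((1 : ℝ) / 4) ^ p := by linarith
  induction J with
  | zero =>
    intro s hs _
    simp only [range_zero, sum_empty]
    positivity
  | succ J ih =>
    intro s hs hs1
    by_cases hRt : s 0 ≤ t
    · have h1 : ∑ j ∈ range (J + 1), (if s j ≤ t then (s j) ^ p else 0) ≤
          ∑ j ∈ range (J + 1), (s j) ^ p := by
        refine Finset.sum_le_sum fun j _ => ?_
        split_ifs
        · exact le_rfl
        · exact Real.rpow_nonneg (hs j).le p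
      refine (h1.trans (geo0 p hp (J + 1) s hs hs1)).trans ?_
      exact div_le_div_of_nonneg_right (Real.rpow_le_rpow (hs 0).le hRt hp.le) hq'.le
    · rw [Finset.sum_range_succ', if_neg hRt, add_zero]
      exact ih (fun j => s (j + 1)) (fun j => hs (j + 1)) (fun j => hs1 (j + 1))

/-- Counting lemma: if `a` is nonnegative with `p`-th powers summing to at most `S`, and `a n ≥ r`
for all `n < k`, then `k * r ^ p ≤ S`. -/
theorem count_le (p : ℝ) (hp : 0 < p) (a : ℕ → ℝ) (ha0 : ∀ n, 0 ≤ a n)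
    (h : Summable fun n => (a n) ^ p) (r : ℝ) (hr : 0 < r) (k : ℕ) (hk : ∀ n, n < k → r ≤ a n) :
    (k : ℝ) * r ^ p ≤ ∑' n, (a n) ^ p := by
  have h1 : (k : ℝ) * r ^ p = ∑ n ∈ range k, r ^ p := by
    rw [Finset.sum_const, card_range, nsmul_eq_mul]
  rw [h1]
  refine (Finset.sum_le_sum fun n hn => ?_).trans
    (h.sum_le_tsum (range k) (fun n _ => Real.rpow_nonneg (ha0 n) p))
  exact Real.rpow_le_rpow hr.le (hk n (mem_range.1 hn)) hp.le

/-- polynomial versus exponential. -/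
theorem exists_exp (p c : ℝ) (hc : 0 ≤ c) :
    ∃ m : ℕ, 16384 * (c * ((m : ℝ) + 1) ^ p + 5) ≤ (4 : ℝ) ^ (m + 1) := by
  obtain ⟨d, hd⟩ : ∃ d : ℕ, p ≤ d := exists_nat_ge p
  have ht := tendsto_pow_const_div_const_pow_of_one_lt d (by norm_num : (1 : ℝ) < 4)
  have hε : 0 < 1 / (16384 * (c + 5)) := by positivity
  have h1 := (ht.eventually (gt_mem_nhds hε))
  obtain ⟨n, hn1, hn2⟩ := (h1.and (Filter.eventually_ge_atTop 1)).exists
  obtain ⟨m, rfl⟩ : ∃ m, n = m + 1 := ⟨n - 1, by omega⟩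
  refine ⟨m, ?_⟩
  rw [div_lt_div_iff₀ (by positivity) (by positivity)] at hn1
  push_cast at hn1
  have hm : (1 : ℝ) ≤ (m : ℝ) + 1 := by
    have : (0 : ℝ) ≤ m := m.cast_nonneg
    linarith
  have h2 : ((m : ℝ) + 1) ^ p ≤ ((m : ℝ) + 1) ^ d := by
    rw [← Real.rpow_natCast]
    exact Real.rpow_le_rpow_of_exponent_le hm hd
  have h3 : (1 : ℝ) ≤ ((m : ℝ) + 1) ^ d := one_le_pow₀ hm
  have h4 : c * ((m : ℝ) + 1) ^ p ≤ c * ((m : ℝ) + 1) ^ d := mul_le_mul_of_nonneg_left h2 hc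
  nlinarith

/-- The choice of the scales. -/
theorem schedule (p S : ℝ) (hS : 0 ≤ S) (a : ℕ → ℝ) (R : ℝ) (hR : 0 < R) (haR : a 0 = R)
    (hcount : ∀ r : ℝ, 0 < r → ∀ k : ℕ, (∀ n, n < k → r ≤ a n) → (k : ℝ) * r ^ p ≤ S) :
    ∃ (k mm : ℕ → ℕ) (s : ℕ → ℝ), (∀ j, s j = R / 4 ^ j / (640 * ((mm j : ℝ) + 1))) ∧
      (∀ j, 0 < s j) ∧ (∀ j, s (j + 1) ≤ s j / 4) ∧ (∀ j, a (k j) < s j) ∧
      (∀ j n, n < k j → s j ≤ a n) ∧ (∀ j, 16384 * (k j + 5) ≤ 4 ^ (mm j + 1)) ∧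
      (∀ j, 1 ≤ k j) ∧ (∀ j, ((mm j : ℝ) + 1) ≤ 12 * Real.log ((k j : ℝ) + 2)) ∧ Monotone mm := by
  have hsmall : ∀ r : ℝ, 0 < r → ∃ k, a k < r := by
    intro r hr
    by_contra hcon
    push Not at hcon
    have hrp : 0 < r ^ p := Real.rpow_pos_of_pos hr p
    obtain ⟨k, hk⟩ := exists_nat_gt (S / r ^ p)
    have h1 := hcount r hr k (fun n _ => hcon n)
    rw [div_lt_iff₀ hrp] at hk
    linarith
  -- the counting function
  obtain ⟨kap, hkap⟩ : ∃ kap : ℝ → ℕ, ∀ r, kap r = sInf {k | a k < r} := ⟨_, fun _ => rfl⟩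
  have kap_spec : ∀ r, 0 < r → a (kap r) < r := by
    intro r hr
    rw [hkap]
    exact Nat.sInf_mem (s := {k | a k < r}) (hsmall r hr)
  have kap_min : ∀ r n, n < kap r → r ≤ a n := by
    intro r n hn
    rw [hkap] at hn
    have := Nat.notMem_of_lt_sInf hn
    exact not_lt.1 this
  have kap_mono : ∀ r r', 0 < r → r ≤ r' → kap r' ≤ kap r := by
    intro r r' hr hrr'
    rw [hkap r']
    exact Nat.sInf_le (lt_of_lt_of_le (kap_spec r hr) hrr')
  -- radii
  obtain ⟨rad, hrad⟩ : ∃ rad : ℕ → ℕ → ℝ, ∀ j m, rad j m = R / 4 ^ j / (640 * ((m : ℝ) + 1)) :=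
    ⟨_, fun _ _ => rfl⟩
  have rad_pos : ∀ j m, 0 < rad j m := by
    intro j m
    rw [hrad]
    positivity
  have rad_anti : ∀ j m m', m ≤ m' → rad j m' ≤ rad j m := by
    intro j m m' hmm
    rw [hrad, hrad]
    have : (m : ℝ) ≤ m' := by exact_mod_cast hmm
    gcongr
  have rad_succ : ∀ j m, rad (j + 1) m = rad j m / 4 := by
    intro j m
    rw [hrad, hrad, pow_succ]
    field_simp
  have hex : ∀ j, ∃ m, 16384 * (kap (rad j m) + 5) ≤ 4 ^ (m + 1) := by
    intro j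
    obtain ⟨m, hm⟩ := exists_exp p (S * (640 * 4 ^ j / R) ^ p) (by positivity)
    refine ⟨m, ?_⟩
    have h1 := hcount (rad j m) (rad_pos j m) (kap (rad j m)) (kap_min _)
    have h2 : (kap (rad j m) : ℝ) ≤ S * (640 * 4 ^ j / R) ^ p * ((m : ℝ) + 1) ^ p := by
      have hrp : 0 < (rad j m) ^ p := Real.rpow_pos_of_pos (rad_pos j m) p
      rw [mul_assoc, ← Real.mul_rpow (by positivity) (by positivity)]
      have e1 : 640 * 4 ^ j / R * ((m : ℝ) + 1) = (rad j m)⁻¹ := by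
        rw [hrad]; field_simp
      rw [e1, Real.inv_rpow (rad_pos j m).le, ← div_eq_mul_inv, le_div_iff₀ hrp]
      exact h1
    have h3 : (16384 * ((kap (rad j m) : ℝ) + 5)) ≤ (4 : ℝ) ^ (m + 1) := by linarith
    exact_mod_cast h3
  obtain ⟨mm, hmm⟩ : ∃ mm : ℕ → ℕ, ∀ j, mm j = sInf {m | 16384 * (kap (rad j m) + 5) ≤ 4 ^ (m + 1)} :=
    ⟨_, fun _ => rfl⟩
  have mm_spec : ∀ j, 16384 * (kap (rad j (mm j)) + 5) ≤ 4 ^ (mm j + 1) := by
    intro j
    have := Nat.sInf_mem (s := {m | 16384 * (kap (rad j m) + 5) ≤ 4 ^ (m + 1)}) (hex j)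
    rw [← hmm j] at this
    exact this
  have mm_min : ∀ j m, m < mm j → 4 ^ (m + 1) < 16384 * (kap (rad j m) + 5) := by
    intro j m hm
    rw [hmm] at hm
    have := Nat.notMem_of_lt_sInf hm
    exact not_le.1 this
  have mm_mono : ∀ j, mm j ≤ mm (j + 1) := by
    intro j
    rw [hmm j]
    refine Nat.sInf_le ?_
    show 16384 * (kap (rad j (mm (j + 1))) + 5) ≤ 4 ^ (mm (j + 1) + 1)
    refine le_trans ?_ (mm_spec (j + 1))
    have : kap (rad j (mm (j + 1))) ≤ kap (rad (j + 1) (mm (j + 1))) := by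
      refine kap_mono _ _ (rad_pos _ _) ?_
      rw [rad_succ]
      have := rad_pos j (mm (j + 1))
      linarith
    omega
  obtain ⟨s, hs⟩ : ∃ s : ℕ → ℝ, ∀ j, s j = rad j (mm j) := ⟨_, fun _ => rfl⟩
  obtain ⟨k, hk⟩ : ∃ k : ℕ → ℕ, ∀ j, k j = kap (s j) := ⟨_, fun _ => rfl⟩
  have s_pos : ∀ j, 0 < s j := fun j => by rw [hs]; exact rad_pos _ _
  have s_succ : ∀ j, s (j + 1) ≤ s j / 4 := by
    intro j
    rw [hs, hs, rad_succ]
    have := rad_anti j _ _ (mm_mono j)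
    linarith
  have hkspec : ∀ j, a (k j) < s j := fun j => by rw [hk]; exact kap_spec _ (s_pos j)
  have hkmin : ∀ j n, n < k j → s j ≤ a n := fun j n hn => kap_min _ n (by rwa [hk] at hn)
  have hJ : ∀ j, 16384 * (k j + 5) ≤ 4 ^ (mm j + 1) := fun j => by
    rw [hk, hs]; exact mm_spec j
  have hk1 : ∀ j, 1 ≤ k j := by
    intro j
    by_contra hcon
    have h0 : k j = 0 := by omega
    have h1 := hkspec j
    rw [h0, haR, hs, hrad] at h1
    have h4 : (1 : ℝ) ≤ 4 ^ j := one_le_pow₀ (by norm_num)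
    have h5 : (0 : ℝ) ≤ mm j := (mm j).cast_nonneg
    have h6 : R / 4 ^ j / (640 * ((mm j : ℝ) + 1)) ≤ R := by
      rw [div_div]
      refine div_le_self hR.le ?_
      nlinarith
    linarith
  -- J is logarithmic in k
  have hJlog : ∀ j, ((mm j : ℝ) + 1) ≤ 12 * Real.log ((k j : ℝ) + 2) := by
    intro j
    have hkr : (1 : ℝ) ≤ k j := by exact_mod_cast hk1 j
    have h1 : (4 : ℝ) ^ (mm j) ≤ 16384 * ((k j : ℝ) + 5) := by
      rcases Nat.eq_zero_or_pos (mm j) with h0 | h0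
      · rw [h0, pow_zero]; linarith
      · obtain ⟨m, hm⟩ : ∃ m, mm j = m + 1 := ⟨mm j - 1, by omega⟩
        have h2 := mm_min j m (by omega)
        have h3 : kap (rad j m) ≤ k j := by
          rw [hk, hs]
          exact kap_mono _ _ (rad_pos _ _) (rad_anti j _ _ (by omega))
        rw [hm]
        have h4 : 4 ^ (m + 1) ≤ 16384 * (k j + 5) := by omega
        exact_mod_cast h4
    have h2 : (mm j : ℝ) * Real.log 4 ≤ Real.log 16384 + Real.log ((k j : ℝ) + 5) := by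
      have := Real.log_le_log (by positivity) h1
      rw [Real.log_pow, Real.log_mul (by norm_num) (by linarith)] at this
      exact this
    have h4 : Real.log 4 = 2 * Real.log 2 := by
      rw [show (4 : ℝ) = 2 ^ 2 by norm_num, Real.log_pow]; norm_num
    have h5 : Real.log 16384 = 14 * Real.log 2 := by
      rw [show (16384 : ℝ) = 2 ^ 14 by norm_num, Real.log_pow]; norm_num
    have h6 : Real.log ((k j : ℝ) + 5) ≤ Real.log 2 + Real.log ((k j : ℝ) + 2) := by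
      rw [← Real.log_mul (by norm_num) (by linarith)]
      exact Real.log_le_log (by linarith) (by linarith)
    have h7 : Real.log 3 ≤ Real.log ((k j : ℝ) + 2) := Real.log_le_log (by norm_num) (by linarith)
    have h8 : 1 ≤ Real.log 3 := by
      rw [Real.le_log_iff_exp_le (by norm_num)]
      exact Real.exp_one_lt_d9.le.trans (by norm_num)
    have h9 := Real.log_two_gt_d9
    have h10 : (mm j : ℝ) * 2 ≤ 15 + Real.log ((k j : ℝ) + 2) / Real.log 2 := by
      rw [← sub_le_iff_le_add', le_div_iff₀ (by linarith)]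
      rw [h4, h5] at h2
      nlinarith
    have h11 : Real.log ((k j : ℝ) + 2) / Real.log 2 ≤ 2 * Real.log ((k j : ℝ) + 2) := by
      rw [div_le_iff₀ (by linarith)]
      nlinarith
    linarith
  refine ⟨k, mm, s, fun j => by rw [hs, hrad], s_pos, s_succ, hkspec, hkmin, hJ, hk1, hJlog,
    monotone_nat_of_le_succ mm_mono⟩

/-- The hypothesis of the summation theorems: the covering statement obtained by telescoping. -/
def TeleHyp (a b : ℕ → ℝ) (R : ℝ) : Prop :=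
  ∀ k J : ℕ → ℕ, (∀ j, 16384 * (k j + 5) ≤ 4 ^ J j) →
      (∀ j, a (k j) < R / 4 ^ j / (640 * J j)) → ∀ i, b (∑ j ∈ range i, k j * J j) ≤ R / 4 ^ i

/-- The summation theorem. -/
theorem weighted (p : ℝ) (hp : 0 < p) : ∃ C : ℝ, 0 < C ∧ ∀ (a b : ℕ → ℝ) (R : ℝ), 0 < R → a 0 = R →
    (∀ n, 0 ≤ a n) → (∀ n, 0 ≤ b n) → Antitone b → (Summable fun n => (a n) ^ p) → TeleHyp a b R →
    ∀ N, ∑ n ∈ range N, (b n) ^ p * wt p n ≤ C * ∑' n, (a n) ^ p := by
  obtain ⟨Cw, hCw, hsw⟩ := sum_wt p hp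
  have hq := q_lt p hp
  have hq' : 0 < 1 - ((1 : ℝ) / 4) ^ p := by linarith
  refine ⟨Cw * (640 ^ p * 12 ^ (p + 1)) / (1 - ((1 : ℝ) / 4) ^ p), by positivity, ?_⟩
  intro a b R hR haR ha0 hb0 hbanti h tele
  set S : ℝ := ∑' n, (a n) ^ p with hS
  have hap : ∀ n, 0 ≤ (a n) ^ p := fun n => Real.rpow_nonneg (ha0 n) p
  have hS0 : 0 ≤ S := tsum_nonneg hap
  obtain ⟨k, mm, s, hs, s_pos, s_succ, hkspec, hkmin, hJ, hk1, hJlog, _⟩ :=
    schedule p S hS0 a R hR haR (fun r hr k hk => count_le p hp a ha0 h r hr k hk)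
  -- positions
  obtain ⟨N, hN⟩ : ∃ N : ℕ → ℕ, ∀ i, N i = ∑ j ∈ range i, k j * (mm j + 1) := ⟨_, fun i => rfl⟩
  have hbN : ∀ i, b (N i) ≤ R / 4 ^ i := by
    intro i
    rw [hN]
    refine tele k (fun j => mm j + 1) hJ (fun j => ?_) i
    have := hkspec j
    rw [hs] at this
    push_cast
    exact this
  have hNi : ∀ i, i ≤ N i := by
    intro i
    rw [hN]
    calc i = ∑ j ∈ range i, 1 := by simp
      _ ≤ ∑ j ∈ range i, k j * (mm j + 1) := Finset.sum_le_sum fun j _ =>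
          Nat.one_le_iff_ne_zero.2 (Nat.mul_ne_zero (by have := hk1 j; omega) (by omega))
  -- the blocks
  have hblock : ∀ i, ∑ n ∈ range (N i), (b n) ^ p * wt p n ≤
      ∑ j ∈ range i, Cw * (640 ^ p * 12 ^ (p + 1)) * ((k j : ℝ) * (s j) ^ p) := by
    intro i
    induction i with
    | zero => rw [hN]; simp
    | succ i ih =>
      have h1 : N (i + 1) = N i + k i * (mm i + 1) := by rw [hN, hN, Finset.sum_range_succ]
      rw [h1, Finset.sum_range_add, Finset.sum_range_succ]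
      refine add_le_add ih ?_
      obtain ⟨M, hM⟩ : ∃ M, M = k i * (mm i + 1) := ⟨_, rfl⟩
      rw [← hM]
      have hM1 : 1 ≤ M := by
        rw [hM]
        exact Nat.one_le_iff_ne_zero.2 (Nat.mul_ne_zero (by have := hk1 i; omega) (by omega))
      have hkM : k i ≤ M := by rw [hM]; exact Nat.le_mul_of_pos_right _ (by omega)
      have h2 : ∀ n ∈ range M, (b (N i + n)) ^ p * wt p (N i + n) ≤ (R / 4 ^ i) ^ p * wt p n := by
        intro n _
        refine mul_le_mul ?_ (wt_anti p hp (Nat.le_add_left _ _)) (wt_pos p _).le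
          (Real.rpow_nonneg (by positivity) _)
        exact Real.rpow_le_rpow (hb0 _) ((hbanti (Nat.le_add_right _ _)).trans (hbN i)) hp.le
      refine (Finset.sum_le_sum h2).trans ?_
      rw [← Finset.mul_sum]
      have h3 : (R / 4 ^ i) ^ p * ∑ n ∈ range M, wt p n ≤ (R / 4 ^ i) ^ p * (Cw * (M * wt p M)) :=
        mul_le_mul_of_nonneg_left (hsw M hM1) (Real.rpow_nonneg (by positivity) _)
      refine h3.trans ?_
      have e1 : R / 4 ^ i = 640 * ((mm i : ℝ) + 1) * s i := by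
        rw [hs]; field_simp
      have hmpos : (0 : ℝ) < (mm i : ℝ) + 1 := by positivity
      have hlogk := log_pos' (k i)
      have h4 : wt p M ≤ wt p (k i) := wt_anti p hp hkM
      have h5 : ((mm i : ℝ) + 1) ^ (p + 1) * wt p (k i) ≤ 12 ^ (p + 1) := by
        unfold wt
        rw [mul_one_div, div_le_iff₀ (Real.rpow_pos_of_pos hlogk _), ← Real.mul_rpow (by norm_num) hlogk.le]
        exact Real.rpow_le_rpow hmpos.le (hJlog i) (by linarith)
      have e2 : (R / 4 ^ i) ^ p = 640 ^ p * ((mm i : ℝ) + 1) ^ p * (s i) ^ p := by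
        rw [e1, Real.mul_rpow (by positivity) (s_pos i).le, Real.mul_rpow (by norm_num) hmpos.le]
      have e3 : (M : ℝ) = (k i : ℝ) * ((mm i : ℝ) + 1) := by rw [hM]; push_cast; ring
      have e4 : ((mm i : ℝ) + 1) ^ (p + 1) = ((mm i : ℝ) + 1) ^ p * ((mm i : ℝ) + 1) := by
        rw [Real.rpow_add hmpos, Real.rpow_one]
      have hsp : 0 < (s i) ^ p := Real.rpow_pos_of_pos (s_pos i) p
      calc (R / 4 ^ i) ^ p * (Cw * (M * wt p M)) ≤ (R / 4 ^ i) ^ p * (Cw * (M * wt p (k i))) := by gcongr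
        _ = Cw * 640 ^ p * ((k i : ℝ) * (s i) ^ p) * (((mm i : ℝ) + 1) ^ (p + 1) * wt p (k i)) := by
            rw [e2, e3, e4]; ring
        _ ≤ Cw * 640 ^ p * ((k i : ℝ) * (s i) ^ p) * 12 ^ (p + 1) := by gcongr
        _ = _ := by ring
  -- summation over scales
  have hscale : ∀ i, ∑ j ∈ range i, (k j : ℝ) * (s j) ^ p ≤ S / (1 - ((1 : ℝ) / 4) ^ p) := by
    intro i
    obtain ⟨K, hK⟩ : ∃ K : ℕ, K = ∑ j ∈ range i, k j := ⟨_, rfl⟩
    have h2 : ∑ j ∈ range i, (k j : ℝ) * (s j) ^ p ≤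
        ∑ n ∈ range K, ∑ j ∈ range i, (if s j ≤ a n then (s j) ^ p else 0) := by
      rw [Finset.sum_comm]
      refine Finset.sum_le_sum fun j hj => ?_
      have hkK : k j ≤ K := by
        rw [hK]; exact Finset.single_le_sum (f := k) (fun _ _ => Nat.zero_le _) hj
      have h3 : (k j : ℝ) * (s j) ^ p = ∑ n ∈ range (k j), (s j) ^ p := by
        rw [Finset.sum_const, card_range, nsmul_eq_mul]
      rw [h3]
      have h4 : ∑ n ∈ range (k j), (s j) ^ p ≤
          ∑ n ∈ range (k j), (if s j ≤ a n then (s j) ^ p else 0) := by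
        refine Finset.sum_le_sum fun n hn => ?_
        rw [if_pos (hkmin j n (mem_range.1 hn))]
      refine h4.trans ?_
      refine Finset.sum_le_sum_of_subset_of_nonneg (fun n hn => ?_) fun n _ _ => ?_
      · exact mem_range.2 (lt_of_lt_of_le (mem_range.1 hn) hkK)
      · split_ifs
        · exact Real.rpow_nonneg (s_pos j).le p
        · exact le_rfl
    have h5 : ∑ n ∈ range K, ∑ j ∈ range i, (if s j ≤ a n then (s j) ^ p else 0) ≤
        ∑ n ∈ range K, (a n) ^ p / (1 - ((1 : ℝ) / 4) ^ p) :=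
      Finset.sum_le_sum fun n _ => geo p hp (a n) (ha0 n) i s s_pos s_succ
    have h7 : ∑ n ∈ range K, (a n) ^ p / (1 - ((1 : ℝ) / 4) ^ p) ≤ S / (1 - ((1 : ℝ) / 4) ^ p) := by
      rw [← Finset.sum_div]
      exact div_le_div_of_nonneg_right (h.sum_le_tsum _ (fun n _ => hap n)) hq'.le
    exact h2.trans (h5.trans h7)
  intro n
  have h1 : ∑ i ∈ range n, (b i) ^ p * wt p i ≤ ∑ i ∈ range (N n), (b i) ^ p * wt p i := by
    refine Finset.sum_le_sum_of_subset_of_nonneg (fun i hi => ?_) fun i _ _ =>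
      mul_nonneg (Real.rpow_nonneg (hb0 i) _) (wt_pos p i).le
    exact mem_range.2 (lt_of_lt_of_le (mem_range.1 hi) (hNi n))
  refine h1.trans ((hblock n).trans ?_)
  rw [← Finset.mul_sum]
  have h2 := mul_le_mul_of_nonneg_left (hscale n) (by positivity : 0 ≤ Cw * (640 ^ p * 12 ^ (p + 1)))
  refine h2.trans (le_of_eq ?_)
  ring

/-- Comparison of powers of a number bounded below. -/
theorem rpow_neg_le (L s : ℝ) (hL : Real.log 2 ≤ L) :
    L ^ (-s) ≤ (Real.log 2) ^ (-(2 * |s|)) * L ^ |s| := by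
  have h2 : 0 < Real.log 2 := Real.log_pos (by norm_num)
  have h21 : Real.log 2 ≤ 1 := by
    have := Real.log_two_lt_d9
    linarith
  have hL0 : 0 < L := by linarith
  rcases le_total 0 s with hs | hs
  · rw [abs_of_nonneg hs]
    have e : L ^ (-s) = L ^ (-(2 * s)) * L ^ s := by
      rw [← Real.rpow_add hL0]; congr 1; ring
    rw [e]
    refine mul_le_mul_of_nonneg_right ?_ (Real.rpow_nonneg hL0.le _)
    exact Real.rpow_le_rpow_of_nonpos h2 hL (by linarith)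
  · rw [abs_of_nonpos hs]
    have h1 : 1 ≤ (Real.log 2) ^ (-(2 * -s)) :=
      Real.one_le_rpow_of_pos_of_le_one_of_nonpos h2 h21 (by linarith)
    have h3 : 0 ≤ L ^ (-s) := Real.rpow_nonneg hL0.le _
    nlinarith

/-- From the weighted bound at the exponent `p` to every larger exponent, with any power of the
logarithm as a weight. -/
theorem larger (p q s : ℝ) (hp : 0 < p) (hpq : p < q) : ∃ K : ℝ, 0 < K ∧ ∀ (b : ℕ → ℝ) (B : ℝ),
    (∀ n, 0 ≤ b n) → Antitone b → (∀ N, ∑ n ∈ range N, (b n) ^ p * wt p n ≤ B) →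
    ∀ N, ∑ n ∈ range N, (b n) ^ q / (Real.log ((n : ℝ) + 2)) ^ s ≤ K * B ^ (q / p) := by
  obtain ⟨r, hr⟩ : ∃ r : ℝ, r = (q - p) / p := ⟨_, rfl⟩
  have hr0 : 0 < r := by rw [hr]; exact div_pos (by linarith) hp
  obtain ⟨A, hA⟩ : ∃ A : ℝ, A = (p + 1) * (1 + r) + |s| := ⟨_, rfl⟩
  have hA0 : 0 < A := by rw [hA]; positivity
  have hlog2 : 0 < Real.log 2 := Real.log_pos (by norm_num)
  obtain ⟨Ks, hKs⟩ : ∃ Ks : ℝ, Ks = (Real.log 2) ^ (-(2 * |s|)) := ⟨_, rfl⟩
  have hKs0 : 0 < Ks := by rw [hKs]; positivity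
  refine ⟨Ks * (2 ^ r * (A / r) ^ A), by positivity, ?_⟩
  intro b B hb0 hbanti hB N
  have hB0 : 0 ≤ B := by simpa using hB 0
  have hpt : ∀ n : ℕ, (b n) ^ p * (((n : ℝ) + 1) * wt p n) ≤ B := by
    intro n
    refine le_trans ?_ (hB (n + 1))
    have h1 : (b n) ^ p * (((n : ℝ) + 1) * wt p n) = ∑ m ∈ range (n + 1), (b n) ^ p * wt p n := by
      rw [Finset.sum_const, card_range, nsmul_eq_mul]; push_cast; ring
    rw [h1]
    refine Finset.sum_le_sum fun m hm => ?_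
    have hmn : m ≤ n := by have := mem_range.1 hm; omega
    exact mul_le_mul (Real.rpow_le_rpow (hb0 n) (hbanti hmn) hp.le) (wt_anti p hp hmn) (wt_pos p n).le
      (Real.rpow_nonneg (hb0 m) _)
  have hterm : ∀ n : ℕ, (b n) ^ q / (Real.log ((n : ℝ) + 2)) ^ s ≤
      Ks * (2 ^ r * (A / r) ^ A) * B ^ r * ((b n) ^ p * wt p n) := by
    intro n
    have hn0 : (0 : ℝ) < (n : ℝ) + 1 := by positivity
    have hlog := log_pos' n
    have hlogge : Real.log 2 ≤ Real.log ((n : ℝ) + 2) :=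
      Real.log_le_log (by norm_num) (by have : (0 : ℝ) ≤ n := n.cast_nonneg; linarith)
    have h3 := log_rpow_le A r hA0 hr0 n
    obtain ⟨L, hL⟩ : ∃ L : ℝ, L = Real.log ((n : ℝ) + 2) := ⟨_, rfl⟩
    rw [← hL] at h3 hlogge
    have hL0 : 0 < L := by rw [hL]; exact hlog
    have hwt : wt p n = 1 / L ^ (p + 1) := by rw [hL]; rfl
    rw [← hL]
    have hLp : 0 < L ^ (p + 1) := Real.rpow_pos_of_pos hL0 _
    have h1 : (b n) ^ p ≤ B * L ^ (p + 1) / ((n : ℝ) + 1) := by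
      have h2 := hpt n
      rw [hwt] at h2
      rw [le_div_iff₀ hn0]
      have h3 : (b n) ^ p * (((n : ℝ) + 1) * (1 / L ^ (p + 1))) * L ^ (p + 1) ≤ B * L ^ (p + 1) :=
        mul_le_mul_of_nonneg_right h2 hLp.le
      have h4 : (b n) ^ p * (((n : ℝ) + 1) * (1 / L ^ (p + 1))) * L ^ (p + 1) =
          (b n) ^ p * ((n : ℝ) + 1) := by field_simp
      rw [h4] at h3
      exact h3
    have hbp : 0 ≤ (b n) ^ p := Real.rpow_nonneg (hb0 n) p
    have e1 : (b n) ^ q = (b n) ^ p * ((b n) ^ p) ^ r := by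
      rw [← Real.rpow_mul (hb0 n)]
      have : p * r = q - p := by rw [hr]; field_simp
      rw [this]
      rcases eq_or_lt_of_le (hb0 n) with h0 | h0
      · rw [← h0, Real.zero_rpow (by linarith), Real.zero_rpow hp.ne', zero_mul]
      · rw [← Real.rpow_add h0]; congr 1; ring
    have h2 : ((b n) ^ p) ^ r ≤ (B * L ^ (p + 1) / ((n : ℝ) + 1)) ^ r := Real.rpow_le_rpow hbp h1 hr0.le
    have e2 : (B * L ^ (p + 1) / ((n : ℝ) + 1)) ^ r = B ^ r * (L ^ (p + 1)) ^ r / ((n : ℝ) + 1) ^ r := by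
      rw [Real.div_rpow (mul_nonneg hB0 hLp.le) hn0.le, Real.mul_rpow hB0 hLp.le]
    have e3 : L ^ A = L ^ (p + 1) * (L ^ (p + 1)) ^ r * L ^ |s| := by
      rw [← Real.rpow_mul hL0.le, ← Real.rpow_add hL0, ← Real.rpow_add hL0, hA]; congr 1; ring
    have hnr : 0 < ((n : ℝ) + 1) ^ r := Real.rpow_pos_of_pos hn0 _
    have h4 : L ^ (p + 1) * ((L ^ (p + 1)) ^ r * L ^ |s| / ((n : ℝ) + 1) ^ r) ≤
        2 ^ r * (A / r) ^ A := by
      rw [← mul_div_assoc, ← mul_assoc, ← e3, div_le_iff₀ hnr]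
      exact h3
    have hBr : 0 ≤ B ^ r := Real.rpow_nonneg hB0 _
    have hneg := rpow_neg_le L s hlogge
    rw [← hKs] at hneg
    have hLs : 0 < L ^ (-s) := Real.rpow_pos_of_pos hL0 _
    have e5 : (b n) ^ q / L ^ s = (b n) ^ q * L ^ (-s) := by
      rw [Real.rpow_neg hL0.le, div_eq_mul_inv]
    have hX0 : 0 ≤ B ^ r * (L ^ (p + 1)) ^ r / ((n : ℝ) + 1) ^ r := by positivity
    calc (b n) ^ q / L ^ s = (b n) ^ p * ((b n) ^ p) ^ r * L ^ (-s) := by rw [e5, e1]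
      _ ≤ (b n) ^ p * (B ^ r * (L ^ (p + 1)) ^ r / ((n : ℝ) + 1) ^ r) * L ^ (-s) := by
          rw [← e2]
          exact mul_le_mul_of_nonneg_right (mul_le_mul_of_nonneg_left h2 hbp) hLs.le
      _ ≤ (b n) ^ p * (B ^ r * (L ^ (p + 1)) ^ r / ((n : ℝ) + 1) ^ r) * (Ks * L ^ |s|) :=
          mul_le_mul_of_nonneg_left hneg (mul_nonneg hbp hX0)
      _ = (b n) ^ p * wt p n * B ^ r * Ks *
          (L ^ (p + 1) * ((L ^ (p + 1)) ^ r * L ^ |s| / ((n : ℝ) + 1) ^ r)) := by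
          rw [hwt]; field_simp
      _ ≤ (b n) ^ p * wt p n * B ^ r * Ks * (2 ^ r * (A / r) ^ A) :=
          mul_le_mul_of_nonneg_left h4
            (mul_nonneg (mul_nonneg (mul_nonneg hbp (wt_pos p n).le) hBr) hKs0.le)
      _ = _ := by ring
  have e4 : B ^ (q / p) = B ^ r * B := by
    have : q / p = r + 1 := by rw [hr]; field_simp; ring
    rw [this]
    rcases eq_or_lt_of_le hB0 with h0 | h0
    · rw [← h0, Real.zero_rpow (by linarith), mul_zero]
    · rw [Real.rpow_add h0, Real.rpow_one]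
  calc ∑ n ∈ range N, (b n) ^ q / (Real.log ((n : ℝ) + 2)) ^ s ≤
        ∑ n ∈ range N, Ks * (2 ^ r * (A / r) ^ A) * B ^ r * ((b n) ^ p * wt p n) :=
        Finset.sum_le_sum fun n _ => hterm n
    _ = Ks * (2 ^ r * (A / r) ^ A) * B ^ r * ∑ n ∈ range N, (b n) ^ p * wt p n := by rw [Finset.mul_sum]
    _ ≤ Ks * (2 ^ r * (A / r) ^ A) * B ^ r * B := by
        refine mul_le_mul_of_nonneg_left (hB N) ?_
        have := Real.rpow_nonneg hB0 r
        positivity
    _ = _ := by rw [e4]; ring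

/-- The same exponent with a stronger weight. -/
theorem same (p s : ℝ) (hs : p + 1 ≤ s) (b : ℕ → ℝ) (B : ℝ)
    (hb0 : ∀ n, 0 ≤ b n) (hB : ∀ N, ∑ n ∈ range N, (b n) ^ p * wt p n ≤ B) (N : ℕ) :
    ∑ n ∈ range N, (b n) ^ p / (Real.log ((n : ℝ) + 2)) ^ s ≤ (Real.log 2) ^ (-(s - (p + 1))) * B := by
  have hlog2 : 0 < Real.log 2 := Real.log_pos (by norm_num)
  calc ∑ n ∈ range N, (b n) ^ p / (Real.log ((n : ℝ) + 2)) ^ s ≤
        ∑ n ∈ range N, (Real.log 2) ^ (-(s - (p + 1))) * ((b n) ^ p * wt p n) := by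
        refine Finset.sum_le_sum fun n _ => ?_
        have hlog := log_pos' n
        have hlogge : Real.log 2 ≤ Real.log ((n : ℝ) + 2) :=
          Real.log_le_log (by norm_num) (by have : (0 : ℝ) ≤ n := n.cast_nonneg; linarith)
        obtain ⟨L, hL⟩ : ∃ L : ℝ, L = Real.log ((n : ℝ) + 2) := ⟨_, rfl⟩
        have hwt : wt p n = 1 / L ^ (p + 1) := by rw [hL]; rfl
        rw [← hL] at hlog hlogge ⊢
        have h1 : L ^ (-(s - (p + 1))) ≤ (Real.log 2) ^ (-(s - (p + 1))) :=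
          Real.rpow_le_rpow_of_nonpos hlog2 hlogge (by linarith)
        have e : (b n) ^ p / L ^ s = L ^ (-(s - (p + 1))) * ((b n) ^ p * wt p n) := by
          have e1 : L ^ s = L ^ (s - (p + 1)) * L ^ (p + 1) := by
            rw [← Real.rpow_add hlog]; congr 1; ring
          have h2 : 0 < L ^ (s - (p + 1)) := Real.rpow_pos_of_pos hlog _
          have h3 : 0 < L ^ (p + 1) := Real.rpow_pos_of_pos hlog _
          rw [hwt, Real.rpow_neg hlog.le, e1]
          field_simp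
        rw [e]
        exact mul_le_mul_of_nonneg_right h1 (mul_nonneg (Real.rpow_nonneg (hb0 n) _) (wt_pos p n).le)
    _ = (Real.log 2) ^ (-(s - (p + 1))) * ∑ n ∈ range N, (b n) ^ p * wt p n := by rw [Finset.mul_sum]
    _ ≤ _ := mul_le_mul_of_nonneg_left (hB N) (by positivity)

/-- Quasi-monotonicity of `(log (x + 2)) ^ (1 + α) / x ^ α`. -/
theorem quasi (α : ℝ) (hα : 0 < α) : ∃ C : ℝ, 0 < C ∧ ∀ x y : ℝ, 1 ≤ y → y ≤ x →
    (Real.log (x + 2)) ^ (1 + α) / x ^ α ≤ C * ((Real.log (y + 2)) ^ (1 + α) / y ^ α) := by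
  obtain ⟨ε, hε⟩ : ∃ ε : ℝ, ε = α / (1 + α) := ⟨_, rfl⟩
  have hε0 : 0 < ε := by rw [hε]; positivity
  refine ⟨(1 + 1 / ε) ^ (1 + α), by positivity, ?_⟩
  intro x y hy hyx
  have hx : 1 ≤ x := hy.trans hyx
  have hy0 : 0 < y := by linarith
  have hx0 : 0 < x := by linarith
  obtain ⟨t, ht⟩ : ∃ t : ℝ, t = x / y := ⟨_, rfl⟩
  have ht1 : 1 ≤ t := by rw [ht, le_div_iff₀ hy0]; linarith
  have hxt : x = t * y := by rw [ht]; field_simp
  have hly : 1 ≤ Real.log (y + 2) := by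
    rw [Real.le_log_iff_exp_le (by linarith)]
    exact (Real.exp_one_lt_d9.le.trans (by norm_num : (2.7182818286 : ℝ) ≤ 3)).trans (by linarith)
  have hlt : 0 ≤ Real.log t := Real.log_nonneg ht1
  have hlt2 : Real.log t ≤ t ^ ε / ε := Real.log_le_rpow_div (by linarith) hε0
  have htε : 1 ≤ t ^ ε := Real.one_le_rpow ht1 hε0.le
  have h1 : Real.log (x + 2) ≤ Real.log (y + 2) * ((1 + 1 / ε) * t ^ ε) := by
    have h2 : Real.log (x + 2) ≤ Real.log t + Real.log (y + 2) := by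
      rw [← Real.log_mul (by linarith) (by linarith)]
      refine Real.log_le_log (by linarith) ?_
      rw [hxt]
      nlinarith
    have h3 : 1 + Real.log t ≤ (1 + 1 / ε) * t ^ ε := by
      have : (1 + 1 / ε) * t ^ ε = t ^ ε + t ^ ε / ε := by ring
      rw [this]
      linarith
    calc Real.log (x + 2) ≤ Real.log (y + 2) * (1 + Real.log t) := by nlinarith
      _ ≤ _ := mul_le_mul_of_nonneg_left h3 (by linarith)
  have hlx : 0 ≤ Real.log (x + 2) := Real.log_nonneg (by linarith)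
  have h2 := Real.rpow_le_rpow hlx h1 (by linarith : 0 ≤ 1 + α)
  have h3 : (Real.log (y + 2) * ((1 + 1 / ε) * t ^ ε)) ^ (1 + α) =
      (Real.log (y + 2)) ^ (1 + α) * ((1 + 1 / ε) ^ (1 + α) * t ^ α) := by
    rw [Real.mul_rpow (by linarith) (by positivity), Real.mul_rpow (by positivity) (by positivity),
      ← Real.rpow_mul (by linarith)]
    congr 3
    rw [hε]; field_simp
  rw [h3] at h2
  have h4 : t ^ α = x ^ α / y ^ α := by rw [ht, Real.div_rpow hx0.le hy0.le]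
  have hxa : 0 < x ^ α := Real.rpow_pos_of_pos hx0 _
  have hya : 0 < y ^ α := Real.rpow_pos_of_pos hy0 _
  rw [h4] at h2
  rw [div_le_iff₀ hxa]
  refine h2.trans (le_of_eq ?_)
  field_simp

/-- The pointwise form. -/
theorem pointwise (α : ℝ) (hα : 0 < α) : ∃ C : ℝ, 0 < C ∧ ∀ (a b : ℕ → ℝ) (R M : ℝ), 0 < R → a 0 = R →
    (∀ n, 0 ≤ a n) → Antitone b → (∀ n : ℕ, a n ≤ M / ((n : ℝ) + 1) ^ α) → TeleHyp a b R →
    ∀ n : ℕ, b n ≤ C * M * (Real.log ((n : ℝ) + 2)) ^ (1 + α) / ((n : ℝ) + 1) ^ α := by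
  obtain ⟨Cq, hCq, hquasi⟩ := quasi α hα
  obtain ⟨p, hpdef⟩ : ∃ p : ℝ, p = 1 / α := ⟨_, rfl⟩
  have hp : 0 < p := by rw [hpdef]; positivity
  have hpα : p * α = 1 := by rw [hpdef]; field_simp
  have hq := q_lt p hp
  have hq' : 0 < 1 - ((1 : ℝ) / 4) ^ p := by linarith
  obtain ⟨c1, hc1⟩ : ∃ c1 : ℝ, c1 = 1 / (1 - ((1 : ℝ) / 4) ^ p) := ⟨_, rfl⟩
  have hc10 : 0 < c1 := by rw [hc1]; positivity
  refine ⟨640 * 12 ^ (1 + α) * c1 ^ α * Cq * 2 ^ (1 + α), by positivity, ?_⟩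
  intro a b R M hR haR ha0 hbanti haM tele n
  have hRM : R ≤ M := by
    have := haM 0
    rw [haR] at this
    simpa using this
  have hM0 : 0 < M := by linarith
  obtain ⟨S, hS⟩ : ∃ S : ℝ, S = M ^ p := ⟨_, rfl⟩
  have hS0 : 0 < S := by rw [hS]; positivity
  have hSα : S ^ α = M := by rw [hS, ← Real.rpow_mul hM0.le, hpα, Real.rpow_one]
  have hcount : ∀ r : ℝ, 0 < r → ∀ k : ℕ, (∀ n, n < k → r ≤ a n) → (k : ℝ) * r ^ p ≤ S := by
    intro r hr k hk
    rcases Nat.eq_zero_or_pos k with h0 | h0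
    · rw [h0]; simpa using hS0.le
    · obtain ⟨m, rfl⟩ : ∃ m, k = m + 1 := ⟨k - 1, by omega⟩
      have h1 := (hk m (by omega)).trans (haM m)
      have hm : (0 : ℝ) < (m : ℝ) + 1 := by positivity
      rw [le_div_iff₀ (Real.rpow_pos_of_pos hm _)] at h1
      have h2 := Real.rpow_le_rpow (by positivity) h1 hp.le
      rw [Real.mul_rpow hr.le (by positivity), ← Real.rpow_mul hm.le, mul_comm α p, hpα,
        Real.rpow_one] at h2
      rw [hS]
      push_cast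
      linarith
  obtain ⟨k, mm, s, hs, s_pos, s_succ, hkspec, hkmin, hJ, hk1, hJlog, hmono⟩ :=
    schedule p S hS0.le a R hR haR hcount
  -- positions
  obtain ⟨N, hN⟩ : ∃ N : ℕ → ℕ, ∀ i, N i = ∑ j ∈ range i, k j * (mm j + 1) := ⟨_, fun i => rfl⟩
  have hbN : ∀ i, b (N i) ≤ R / 4 ^ i := by
    intro i
    rw [hN]
    refine tele k (fun j => mm j + 1) hJ (fun j => ?_) i
    have := hkspec j
    rw [hs] at this
    push_cast
    exact this
  have hNi : ∀ i, i ≤ N i := by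
    intro i
    rw [hN]
    calc i = ∑ j ∈ range i, 1 := by simp
      _ ≤ ∑ j ∈ range i, k j * (mm j + 1) := Finset.sum_le_sum fun j _ =>
          Nat.one_le_iff_ne_zero.2 (Nat.mul_ne_zero (by have := hk1 j; omega) (by omega))
  -- the sum of the k
  have hK : ∀ i, ∑ j ∈ range (i + 1), (k j : ℝ) ≤ S * c1 / (s i) ^ p := by
    intro i
    have hki : ∀ j, (k j : ℝ) ≤ S / (s j) ^ p := fun j => by
      rw [le_div_iff₀ (Real.rpow_pos_of_pos (s_pos j) p)]
      exact hcount (s j) (s_pos j) (k j) (hkmin j)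
    have hc1' : c1 * (1 / 4 : ℝ) ^ p + 1 = c1 := by
      rw [hc1]; field_simp; ring
    have hc11 : 1 ≤ c1 := by
      have : 0 < c1 * (1 / 4 : ℝ) ^ p := by positivity
      linarith
    induction i with
    | zero =>
      simp only [zero_add, sum_range_one]
      refine (hki 0).trans ?_
      refine div_le_div_of_nonneg_right ?_ (Real.rpow_pos_of_pos (s_pos 0) p).le
      nlinarith
    | succ i ih =>
      rw [Finset.sum_range_succ]
      have h1 : S * c1 / (s i) ^ p ≤ S * (c1 * (1 / 4 : ℝ) ^ p) / (s (i + 1)) ^ p := by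
        have h2 : (s (i + 1)) ^ p ≤ (s i) ^ p * (1 / 4 : ℝ) ^ p := by
          rw [← Real.mul_rpow (s_pos i).le (by norm_num)]
          refine Real.rpow_le_rpow (s_pos _).le ?_ hp.le
          have := s_succ i
          linarith
        have hsi := Real.rpow_pos_of_pos (s_pos i) p
        have hsi1 := Real.rpow_pos_of_pos (s_pos (i + 1)) p
        rw [div_le_div_iff₀ hsi hsi1]
        calc S * c1 * (s (i + 1)) ^ p ≤ S * c1 * ((s i) ^ p * (1 / 4 : ℝ) ^ p) :=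
              mul_le_mul_of_nonneg_left h2 (by positivity)
          _ = _ := by ring
      calc ∑ j ∈ range (i + 1), (k j : ℝ) + (k (i + 1) : ℝ) ≤
          S * (c1 * (1 / 4 : ℝ) ^ p) / (s (i + 1)) ^ p + S / (s (i + 1)) ^ p :=
            add_le_add (ih.trans h1) (hki _)
        _ = S * (c1 * (1 / 4 : ℝ) ^ p + 1) / (s (i + 1)) ^ p := by ring
        _ = _ := by rw [hc1']
  -- find the scale of `n`
  have hexi : ∃ i, N i ≤ n ∧ n < N (i + 1) := by
    have hex : ∃ i, n < N i := ⟨n + 1, lt_of_lt_of_le (Nat.lt_succ_self n) (hNi (n + 1))⟩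
    have h1 := Nat.find_spec hex
    have h0 : Nat.find hex ≠ 0 := by
      intro h
      rw [h, hN] at h1
      simp at h1
    obtain ⟨i, hi⟩ : ∃ i, Nat.find hex = i + 1 := ⟨Nat.find hex - 1, by omega⟩
    refine ⟨i, ?_, by rw [← hi]; exact h1⟩
    have := Nat.find_min hex (show i < Nat.find hex by omega)
    exact not_lt.1 this
  obtain ⟨i, hi1, hi2⟩ := hexi
  have hb1 : b n ≤ R / 4 ^ i := (hbanti hi1).trans (hbN i)
  obtain ⟨x, hx⟩ : ∃ x : ℝ, x = (N (i + 1) : ℝ) := ⟨_, rfl⟩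
  obtain ⟨J, hJdef⟩ : ∃ J : ℝ, J = (mm i : ℝ) + 1 := ⟨_, rfl⟩
  have hJ0 : 0 < J := by rw [hJdef]; positivity
  have hyx : (n : ℝ) + 1 ≤ x := by rw [hx]; exact_mod_cast hi2
  have hn0 : (0 : ℝ) ≤ n := n.cast_nonneg
  have hx1 : 1 ≤ x := by linarith
  have hx0 : 0 < x := by linarith
  -- upper bound for x
  have hxle : x ≤ J * (S * c1 / (s i) ^ p) := by
    rw [hx, hN]
    push_cast
    calc ∑ j ∈ range (i + 1), (k j : ℝ) * ((mm j : ℝ) + 1) ≤ ∑ j ∈ range (i + 1), (k j : ℝ) * J := by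
          refine Finset.sum_le_sum fun j hj => ?_
          refine mul_le_mul_of_nonneg_left ?_ (Nat.cast_nonneg _)
          rw [hJdef]
          have : (mm j : ℝ) ≤ mm i := by exact_mod_cast hmono (by have := mem_range.1 hj; omega)
          linarith
      _ = J * ∑ j ∈ range (i + 1), (k j : ℝ) := by rw [← Finset.sum_mul]; ring
      _ ≤ _ := mul_le_mul_of_nonneg_left (hK i) hJ0.le
  have hsi := s_pos i
  have hxα : x ^ α ≤ J ^ α * (M * c1 ^ α / s i) := by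
    have h1 := Real.rpow_le_rpow hx0.le hxle hα.le
    have h2 : (J * (S * c1 / (s i) ^ p)) ^ α = J ^ α * (M * c1 ^ α / s i) := by
      have hsp := Real.rpow_pos_of_pos hsi p
      rw [Real.mul_rpow hJ0.le (by positivity), Real.div_rpow (by positivity) hsp.le,
        Real.mul_rpow hS0.le hc10.le, hSα, ← Real.rpow_mul hsi.le, hpα, Real.rpow_one]
    rw [h2] at h1
    exact h1
  have hxα0 : 0 < x ^ α := Real.rpow_pos_of_pos hx0 _
  have hRi : R / 4 ^ i ≤ 640 * c1 ^ α * M * (J ^ (1 + α) / x ^ α) := by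
    have e1 : R / 4 ^ i = 640 * J * s i := by
      rw [hs, hJdef]; field_simp
    have h1 : s i * x ^ α ≤ J ^ α * (M * c1 ^ α) := by
      have h2 := mul_le_mul_of_nonneg_left hxα hsi.le
      have h3 : s i * (J ^ α * (M * c1 ^ α / s i)) = J ^ α * (M * c1 ^ α) := by field_simp
      rw [h3] at h2
      exact h2
    rw [e1, ← mul_div_assoc, le_div_iff₀ hxα0, Real.rpow_add hJ0, Real.rpow_one]
    calc 640 * J * s i * x ^ α = 640 * J * (s i * x ^ α) := by ring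
      _ ≤ 640 * J * (J ^ α * (M * c1 ^ α)) := mul_le_mul_of_nonneg_left h1 (by positivity)
      _ = _ := by ring
  have hkx : (k i : ℝ) ≤ x := by
    rw [hx]
    have : k i ≤ N (i + 1) := by
      rw [hN, Finset.sum_range_succ]
      calc k i ≤ k i * (mm i + 1) := Nat.le_mul_of_pos_right _ (by omega)
        _ ≤ _ := Nat.le_add_left _ _
    exact_mod_cast this
  have hJx : J ≤ 12 * Real.log (x + 2) := by
    rw [hJdef]
    refine (hJlog i).trans ?_
    have h0 : (0 : ℝ) ≤ k i := Nat.cast_nonneg _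
    have := Real.log_le_log (by linarith : (0 : ℝ) < (k i : ℝ) + 2) (by linarith : (k i : ℝ) + 2 ≤ x + 2)
    linarith
  have hlx : 0 < Real.log (x + 2) := Real.log_pos (by linarith)
  have hJα : J ^ (1 + α) ≤ 12 ^ (1 + α) * (Real.log (x + 2)) ^ (1 + α) := by
    rw [← Real.mul_rpow (by norm_num) hlx.le]
    exact Real.rpow_le_rpow hJ0.le hJx (by linarith)
  have hg := hquasi x ((n : ℝ) + 1) (by linarith) hyx
  have hln := log_pos' n
  have hl3 : (Real.log ((n : ℝ) + 1 + 2)) ^ (1 + α) ≤ 2 ^ (1 + α) * (Real.log ((n : ℝ) + 2)) ^ (1 + α) := by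
    rw [← Real.mul_rpow (by norm_num) hln.le]
    refine Real.rpow_le_rpow (Real.log_nonneg (by linarith)) ?_ (by linarith)
    have h2 : Real.log ((n : ℝ) + 1 + 2) ≤ Real.log (((n : ℝ) + 2) ^ 2) :=
      Real.log_le_log (by linarith) (by nlinarith)
    rw [Real.log_pow] at h2
    push_cast at h2
    exact h2
  have hnα : 0 < ((n : ℝ) + 1) ^ α := Real.rpow_pos_of_pos (by linarith) _
  calc b n ≤ R / 4 ^ i := hb1
    _ ≤ 640 * c1 ^ α * M * (J ^ (1 + α) / x ^ α) := hRi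
    _ ≤ 640 * c1 ^ α * M * (12 ^ (1 + α) * (Real.log (x + 2)) ^ (1 + α) / x ^ α) := by gcongr
    _ = 640 * c1 ^ α * M * 12 ^ (1 + α) * ((Real.log (x + 2)) ^ (1 + α) / x ^ α) := by ring
    _ ≤ 640 * c1 ^ α * M * 12 ^ (1 + α) *
        (Cq * ((Real.log ((n : ℝ) + 1 + 2)) ^ (1 + α) / ((n : ℝ) + 1) ^ α)) := by gcongr
    _ ≤ 640 * c1 ^ α * M * 12 ^ (1 + α) *
        (Cq * (2 ^ (1 + α) * (Real.log ((n : ℝ) + 2)) ^ (1 + α) / ((n : ℝ) + 1) ^ α)) := by gcongr
    _ = _ := by ring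

end Pool.Agent.Work.MP_c13439_an.Summation
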