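import Mathlib
import Pool.Agent.Work.MP_c13439_an.Bidual
import Pool.Agent.Work.MP_c13439_an.Summation
import Pool.Agent.Work.MP_c13439_h10.Tele

set_option autoImplicit false

namespace Pool.Agent.Work.MP_c13439_an.Frame

open Finset Pool.Agent.Work.MP_c13439_an Pool.Agent.Work.MP_c13439_an.Summation

section

variable {𝕜 X Y : Type*} [RCLike 𝕜] [NormedAddCommGroup X] [NormedSpace 𝕜 X]
  [NormedAddCommGroup Y] [NormedSpace 𝕜 Y]

theorem teleHyp (T : X →L[𝕜] Y) (hR : 0 < entropyNumber T 0) :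
    TeleHyp (fun n => entropyNumber T n) (fun n => entropyNumber (adjointMap T) n)
      (entropyNumber T 0) := by
  intro k J hJ hk i
  have h := Pool.Agent.Work.MP_c13439_h10.tele_log T (entropyNumber T 0) hR (norm_le_ent T) k J hJ
    (fun j => ent_lt T (k j) _ (hk j)) i
  obtain ⟨W, hW⟩ := h
  exact ent_le _ _ _ (by positivity) W fun y hy => hW y hy

theorem zero_case (T : X →L[𝕜] Y) (h0 : entropyNumber T 0 = 0) (n : ℕ) :
    entropyNumber (adjointMap T) n = 0 := by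
  refine le_antisymm ?_ (ent_nonneg _ n)
  refine le_of_forall_gt_imp_ge_of_dense fun r hr => ?_
  refine ent_le _ n r hr (fun _ => 0) fun y hy => ⟨⟨0, by positivity⟩, ?_⟩
  rw [sub_zero, adj_apply]
  have h1 : ‖y.comp T‖ ≤ ‖y‖ * ‖T‖ := ContinuousLinearMap.opNorm_comp_le _ _
  have h2 : ‖T‖ ≤ 0 := by rw [← h0]; exact norm_le_ent T
  have h3 : ‖T‖ = 0 := le_antisymm h2 (norm_nonneg _)
  rw [h3, mul_zero] at h1
  linarith

/-- The content of the summation theorem, with its constant. -/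
def WP (p C : ℝ) : Prop := ∀ (a b : ℕ → ℝ) (R : ℝ), 0 < R → a 0 = R →
    (∀ n, 0 ≤ a n) → (∀ n, 0 ≤ b n) → Antitone b → (Summable fun n => (a n) ^ p) → TeleHyp a b R →
    ∀ N, ∑ n ∈ range N, (b n) ^ p * wt p n ≤ C * ∑' n, (a n) ^ p

/-- The content of the pointwise theorem, with its constant. -/
def PP (α C : ℝ) : Prop := ∀ (a b : ℕ → ℝ) (R M : ℝ), 0 < R → a 0 = R →
    (∀ n, 0 ≤ a n) → Antitone b → (∀ n : ℕ, a n ≤ M / ((n : ℝ) + 1) ^ α) → TeleHyp a b R →
    ∀ n : ℕ, b n ≤ C * M * (Real.log ((n : ℝ) + 2)) ^ (1 + α) / ((n : ℝ) + 1) ^ α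

theorem fwd_w (T : X →L[𝕜] Y) (p C : ℝ) (hp : 0 < p) (hC : 0 < C) (hw : WP p C)
    (h : Summable fun n => (entropyNumber T n) ^ p) (N : ℕ) :
    ∑ n ∈ range N, (entropyNumber (adjointMap T) n) ^ p * wt p n ≤
      C * ∑' n, (entropyNumber T n) ^ p := by
  rcases eq_or_lt_of_le (ent_nonneg T 0) with h0 | h0
  · have hz : ∑ n ∈ range N, (entropyNumber (adjointMap T) n) ^ p * wt p n = 0 := by
      refine Finset.sum_eq_zero fun n _ => ?_
      rw [zero_case T h0.symm n, Real.zero_rpow hp.ne', zero_mul]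
    rw [hz]
    have : 0 ≤ ∑' n, (entropyNumber T n) ^ p := tsum_nonneg fun n => Real.rpow_nonneg (ent_nonneg T n) p
    positivity
  · exact hw _ _ _ h0 rfl (fun n => ent_nonneg T n) (fun n => ent_nonneg _ n)
      (fun m n hmn => ent_anti _ hmn) h (teleHyp T h0) N

theorem bwd_w (T : X →L[𝕜] Y) (p C : ℝ) (hp : 0 < p) (hC : 0 < C) (hw : WP p C)
    (h : Summable fun n => (entropyNumber (adjointMap T) n) ^ p) (N : ℕ) :
    ∑ n ∈ range N, (entropyNumber T n) ^ p * wt p n ≤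
      2 ^ p * C * ∑' n, (entropyNumber (adjointMap T) n) ^ p := by
  have h1 := fwd_w (adjointMap T) p C hp hC hw h N
  calc ∑ n ∈ range N, (entropyNumber T n) ^ p * wt p n ≤
      ∑ n ∈ range N, 2 ^ p * ((entropyNumber (adjointMap (adjointMap T)) n) ^ p * wt p n) := by
        refine Finset.sum_le_sum fun n _ => ?_
        rw [← mul_assoc, ← Real.mul_rpow (by norm_num) (ent_nonneg _ n)]
        exact mul_le_mul_of_nonneg_right
          (Real.rpow_le_rpow (ent_nonneg _ n) (bidual_le T n) hp.le) (wt_pos p n).le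
    _ = 2 ^ p * ∑ n ∈ range N, (entropyNumber (adjointMap (adjointMap T)) n) ^ p * wt p n := by
        rw [Finset.mul_sum]
    _ ≤ 2 ^ p * (C * ∑' n, (entropyNumber (adjointMap T) n) ^ p) :=
        mul_le_mul_of_nonneg_left h1 (by positivity)
    _ = _ := by ring

theorem fwd_pt (T : X →L[𝕜] Y) (α C M : ℝ) (hC : 0 < C) (hw : PP α C)
    (h : ∀ n : ℕ, entropyNumber T n ≤ M / ((n : ℝ) + 1) ^ α) (n : ℕ) :
    entropyNumber (adjointMap T) n ≤
      C * M * (Real.log ((n : ℝ) + 2)) ^ (1 + α) / ((n : ℝ) + 1) ^ α := by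
  rcases eq_or_lt_of_le (ent_nonneg T 0) with h0 | h0
  · rw [zero_case T h0.symm n]
    have hM : 0 ≤ M := by
      have := h 0
      rw [← h0] at this
      simpa using this
    have hl : 0 < Real.log ((n : ℝ) + 2) := log_pos' n
    positivity
  · exact hw _ _ _ M h0 rfl (fun n => ent_nonneg T n) (fun m n hmn => ent_anti _ hmn) h (teleHyp T h0) n

theorem bwd_pt (T : X →L[𝕜] Y) (α C M : ℝ) (hC : 0 < C) (hw : PP α C)
    (h : ∀ n : ℕ, entropyNumber (adjointMap T) n ≤ M / ((n : ℝ) + 1) ^ α) (n : ℕ) :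
    entropyNumber T n ≤ 2 * C * M * (Real.log ((n : ℝ) + 2)) ^ (1 + α) / ((n : ℝ) + 1) ^ α := by
  have h1 := fwd_pt (adjointMap T) α C M hC hw h n
  have h2 := bidual_le T n
  calc entropyNumber T n ≤ 2 * entropyNumber (adjointMap (adjointMap T)) n := h2
    _ ≤ 2 * (C * M * (Real.log ((n : ℝ) + 2)) ^ (1 + α) / ((n : ℝ) + 1) ^ α) := by linarith
    _ = _ := by ring

end

end Pool.Agent.Work.MP_c13439_an.Frame
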